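import Pool.Agent.Helper21.TM.MT
import Pool.Agent.Helper51.FR.Mf
import Pool.Agent.Helper17.N9.N9D
import Pool.Agent.Helper90.C9.C9J

/-!
MP_c75db0, Plan W: THE TESTS OF TWO QUADRATIC FUNCTIONS (row K9, version 2) as a record.
-/

set_option autoImplicit false
noncomputable section
namespace Pool.Agent.Helper26.TR

open Pool.Agent.Helper17.N9 (Kf Te Mn3 Mn4 tBk)
open Pool.Agent.Helper90.C9 (tfY)

/-- the tests of K9, version 2 -/
def Tr : Pool.Agent.Helper21.SW.TK Kf Te :=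
  ⟨fun k1 k2 g M X => tBk Mn3 tfY M X k1 k2 g, fun k1 k2 g M X => tBk Mn4 tfY M X k1 k2 g,
    Pool.Agent.Helper51.FR.kmK⟩

end Pool.Agent.Helper26.TR
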