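import Pool.Agent.Helper26.TM.ITK
import Pool.Agent.Helper84.TM.NU
import Pool.Agent.Helper51.TM.LBM
import Pool.Agent.Helper53.TM.Let

/-!
Taylor model machine (MP_c75db0, star frame), row M7 (A): THE DISPATCHER of the items (real side)
for machines `Mch` with three parameters, algebra `A`, and their extension `nx A` by the parameter of a family.
Part codes `P`, `k = P % 8`, `n = P / 8`: 0 rotation, 1 exact run, 2 - 4 pieces of a family,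
5 recession direction.
-/

set_option autoImplicit false
noncomputable section
namespace Pool.Agent.Helper91.TMK.IT

open Matrix
open Pool.Agent.Helper90.KMO (UU UU_pos UUc_ne cz zv zv_p)
open Pool.Agent.Helper86.C75 (Z)
open Pool.Agent.Helper86.CX (Cx andB)
open Pool.Agent.Helper86.CT (N3 Alg Mo KM mk cst addM subM mulM conjM invM invOK nx)
open Pool.Agent.Helper17.K9 (V9)
open Pool.Agent.Helper62.TVM (cstC zeM negM hfM re2M nsqM dot3 V3m C3 C9 cstW cstV addW subW negW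
  smW cjW jW hdW dtW addV subV negV smV hfV hdV mulV ctV trV ouV oV dlV drV dgV adV sbV mvV)
open Pool.Agent.Helper62.LBM (RH rhM rhOK)
open Pool.Agent.Helper51.FR (LE LM chM csM RTK andB_t' trK NZ_trK)
open Pool.Agent.Helper26.XM (oneM ajV gaV RX mrM drM tR uR)
open Pool.Agent.Helper26.XH (FH fhM lhM rhM' piM pi0 njM xij mth rhE rhV rhP rhC hX hM hH hL hR sH xH
  xC uC hM_rM)
open Pool.Agent.Helper26.IT (NT_hat RL RL_K even_of condB Pd_k)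
open Pool.Agent.Helper91.BX (crM upM upW upV tu)
open Pool.Agent.Helper91.TMK.FR (LOK cst_nat)
open Pool.Agent.Helper91.TMK.LBM (TRH TRH_all)
open Pool.Agent.Helper91.TMK.XM
open Pool.Agent.Helper91.TMK.XH
open Pool.Agent.Helper91.TMK.SW
open Pool.Agent.Helper21.SW (cK)
open Pool.Agent.Helper6.MONO (V3)
open Pool.Agent.Helper6.MONO.W2 (Mt NT NZ IN rfJ nX rM rMr rD rn h1 h2 nW nWd ns nsd Sy sDm phi Prt
  RPar sat sati Pd cs sc sc_cs brJ rfJ_sq rfJ_uni rfJ_sqM ep)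

variable {α κ γ : Type}

section

variable {lf : Mch α} {A : Alg α} {T : TK α κ γ} {KV : κ → (ℕ → ℝ) → Mt} {t : ℕ → ℝ} {p : ℕ}
  {v vd : V3} {F : FH α} {L : LM α} {g : Sy}

/-- the model of `ch` for the table `RTK` -/
theorem ch_K (hA : AOK 3 lf A) (hP : PT 3 t) {tb : ℕ → LE} {w : Sy → ℝ} {bc : ℕ → ℕ → Prop}
    {c : ℕ} {W : Mo α} (hw : TOK 3 lf t ((w (cs c) : ℝ) : ℂ) W) :
    TOK 3 lf t (((RTK tb w bc).ch (cs c) : ℝ) : ℂ) (chK A c (tb c) W) := by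
  have e0 : Pool.Agent.Helper6.MONO.W2.TY.sc (cs c) = c := Pool.Agent.Helper6.MONO.W2.TY.sc_cs c
  have e : (RTK tb w bc).ch (cs c) = if c / 2 = 1 then
      ((tb c).e.al / UU : ℝ) * w (cs c) - (tb c).e.be / UU else
      ((tb c).e.al / UU : ℝ) - (tb c).e.be / UU * w (cs c) := by
    show (if (cs c).2 = 1 then ((tb (Pool.Agent.Helper6.MONO.W2.TY.sc (cs c))).e.al / UU : ℝ) *
        w (cs c) - (tb (Pool.Agent.Helper6.MONO.W2.TY.sc (cs c))).e.be / UU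
      else ((tb (Pool.Agent.Helper6.MONO.W2.TY.sc (cs c))).e.al / UU : ℝ) -
        (tb (Pool.Agent.Helper6.MONO.W2.TY.sc (cs c))).e.be / UU * w (cs c)) = _
    rw [e0]
    rfl
  rw [e]
  unfold chK
  cases hb : Nat.beq (Nat.div c (nat_lit 2)) (nat_lit 1) with
  | true =>
    have h1 : c / 2 = 1 := Nat.eq_of_beq_eq_true hb
    rw [if_pos h1]
    refine tc (((cst_nat hA hP _).mul hA hP hw).sub hA (cst_nat hA hP _)) ?_
    push_cast
    ring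
  | false =>
    have h1 : ¬ c / 2 = 1 := fun h => by
      have : Nat.beq (Nat.div c 2) 1 = true := by
        rw [show Nat.div c 2 = 1 from h]
        rfl
      rw [this] at hb
      cases hb
    rw [if_neg h1]
    refine tc ((cst_nat hA hP _).sub hA ((cst_nat hA hP _).mul hA hP hw)) ?_
    push_cast
    ring

theorem HOK_up (hN : AOKn 2 3 lf A) (hF : HOK 3 lf t v vd F) (u : ℝ) :
    HOK 4 (nM 3 lf) (tu 3 t u) v vd (upH F) :=
  ⟨TW.up hN hF.hv u, TW.up hN hF.hvd u, TOK.up hN hF.hz u, TV.up hN hF.hc u, TV.up hN hF.hh u⟩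

theorem LOK_up (hN : AOKn 2 3 lf A) (hL : LOK 3 lf t p v vd g L) (u : ℝ) :
    LOK 4 (nM 3 lf) (tu 3 t u) p v vd g (upL L) :=
  ⟨TOK.up hN hL.E u, TOK.up hN hL.P u, TOK.up hN hL.w u, TOK.up hN hL.wd u, TW.up hN hL.s u,
    TW.up hN hL.sd u⟩

theorem nA (hN : AOKn 2 3 lf A) : AOK 3 lf A := hN.toAOKc.mono (by norm_num)

variable {E : LE} {R : RPar} {C : Mo α}

/-- A PIECE: the point with four parameters and the model of `ρ` -/
theorem ro_ex (hN : AOKn 2 3 lf A) (hP : PT 3 t) (hR : RL R g E)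
    (hC : TOK 3 lf t ((R.ch g : ℝ) : ℂ) C) {i : ℕ}
    {τ : ℝ} (b1 : R.τ g i ≤ τ) (b2 : τ ≤ R.τ g (i + 1)) : ∃ u : ℝ, 0 ≤ u ∧ u ≤ 1 ∧
      PT 4 (tu 3 t u) ∧ TOK 4 (nM 3 lf) (tu 3 t u) ((τ * R.ch g : ℝ) : ℂ) (roM A E C i) := by
  rw [hR.τ] at b1 b2
  have hU : UU = 2 ^ 48 := by unfold UU; norm_num
  obtain ⟨u, h0, h1, h2, h3⟩ := cr_ex (τ := τ) (a := E.tau.getD i 0) (b := E.tau.getD (i + 1) 0)
    hN hP (by norm_num) (by rw [← hU]; exact b1) (by rw [← hU]; exact b2)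
  refine ⟨u, h0, h1, h2, tc (h3.mul (AOK_nx hN) h2 (TOK.up hN hC u)) ?_⟩
  push_cast
  ring

theorem H_cst (hB : AOK 4 (nM 3 lf) (nx A)) (hR : RL R g E) {t : ℕ → ℝ} (hP : PT 4 t) :
    TOK 4 (nM 3 lf) t ((R.H g : ℝ) : ℂ) (cst (nx A) E.e.H (nat_lit 0)) := by
  rw [hR.H]
  exact cst_nat hB hP _

theorem rr_cst (hB : AOK 4 (nM 3 lf) (nx A)) (hR : RL R g E) {t : ℕ → ℝ} (hP : PT 4 t) :
    TOK 4 (nM 3 lf) t ((R.rr : ℝ) : ℂ) (cst (nx A) (nat_lit 93824992236886) (nat_lit 0)) := by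
  rw [hR.rr]
  have h := cst_nat hB hP (93824992236886 : ℕ)
  exact tc h (by push_cast; rfl)

variable {k1 k2 : κ} {d : γ} {S S' M D : Mt} {Sl Sr Mm Dd : V9 α}

/-- three parameters, with a derivative -/
theorem t3a_ok (hA : AOK 3 lf A) (hT : TKL lf (nM 3 lf) KV T) (hP : PT 3 t) (h2 : brJ 1 v v = 2)
    (hl : TV 3 lf t (hL v vd S) Sl) (hr : TV 3 lf t (hR v vd S') Sr)
    (hM' : TV 3 lf t (hM v M) Mm) (hD : TV 3 lf t (hM v D) Dd)
    (h : t3a A T k1 k2 d Sl Sr Mm Dd = true) :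
    NT (cK v (KV k1 t)) (cK v (KV k2 t)) (nX v vd M D S S') M :=
  NT_hat h2 (hT.t3 h hP hM' (TV_ij hA h2 (TV_pi hA hP hM' hD hl) (TV_nj hA hP hM' hr)))

/-- three parameters, `D = 0` -/
theorem t3b_ok (hA : AOK 3 lf A) (hT : TKL lf (nM 3 lf) KV T) (hP : PT 3 t) (h2 : brJ 1 v v = 2)
    (hl : TV 3 lf t (hL v vd S) Sl) (hr : TV 3 lf t (hR v vd S') Sr)
    (hM' : TV 3 lf t (hM v M) Mm) (h : t3b A T k1 k2 d Sl Sr Mm = true) :
    NT (cK v (KV k1 t)) (cK v (KV k2 t)) (nX v vd M 0 S S') M :=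
  NT_hat h2 (hT.t3 h hP hM' (TV_ij hA h2 (TV_pi0 hA hP hM' hl) (TV_nj hA hP hM' hr)))

/-- an exact run -/
theorem t3Q_ok (hA : AOK 3 lf A) (hT : TKL lf (nM 3 lf) KV T) (hP : PT 3 t) (h2 : brJ 1 v v = 2)
    (hl : TV 3 lf t (hL v vd S) Sl) (hr : TV 3 lf t (hR v vd S') Sr) {φ ρ a1 a2 : ℝ} {g : Sy}
    {Q : RX α} (hQ : ROK 3 lf t (sH φ v g ρ) (xH φ v vd g ρ a1 a2) (tR φ v g ρ)
      (uR φ v vd g ρ a1 a2) Q) (h : t3Q A T k1 k2 d Sl Sr Q = true) :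
    NT (cK v (KV k1 t)) (cK v (KV k2 t)) (nX v vd (rM φ v g ρ) (rD φ v vd g ρ a1 a2) S S')
      (rM φ v g ρ) :=
  t3a_ok hA hT hP h2 hl hr (TV_hM hA hP h2 hQ) (TV_hD hA hP h2 hQ) h

/-- a piece of a family -/
theorem t4Q_ok (hN : AOKn 2 3 lf A) (hT : TKL lf (nM 3 lf) KV T) (h2 : brJ 1 v v = 2) {u : ℝ}
    (hP : PT 4 (tu 3 t u)) (hl : TV 3 lf t (hL v vd S) Sl) (hr : TV 3 lf t (hR v vd S') Sr)
    {φ ρ a1 a2 : ℝ} {g : Sy} {Q : RX (N3 α)} (hQ : ROK 4 (nM 3 lf) (tu 3 t u) (sH φ v g ρ)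
      (xH φ v vd g ρ a1 a2) (tR φ v g ρ) (uR φ v vd g ρ a1 a2) Q)
    (h : t4Q A T k1 k2 d (upV Sl) (upV Sr) Q = true) :
    NT (cK v (KV k1 t)) (cK v (KV k2 t)) (nX v vd (rM φ v g ρ) (rD φ v vd g ρ a1 a2) S S')
      (rM φ v g ρ) := by
  have hB := AOK_nx hN
  have hM' := TV_hM hB hP h2 hQ
  have hD := TV_hD hB hP h2 hQ
  have h3 := hT.t4 h hP hM' (TV_ij hB h2 (TV_pi hB hP hM' hD (TV.up hN hl u))
    (TV_nj hB hP hM' (TV.up hN hr u)))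
  rw [hT.up, hT.up] at h3
  exact NT_hat h2 h3

/-- a recession direction -/
theorem t4C_ok (hB : AOK 4 (nM 3 lf) (nx A)) (hT : TKL lf (nM 3 lf) KV T) (h2 : brJ 1 v v = 2) {u : ℝ}
    (hP : PT 4 (tu 3 t u)) {φ ρ rr : ℝ} {g : Sy} {Q : RX (N3 α)}
    (hQ : ROK 4 (nM 3 lf) (tu 3 t u) (sH φ v g ρ) (xC φ v g ρ rr) (tR φ v g ρ) (uC φ v g ρ rr) Q)
    (h : t4C A T k1 k2 d Q = true) :
    NT (cK v (KV k1 t)) (cK v (KV k2 t)) (rM φ v g ρ + ((rr : ℝ) : ℂ) • rMr φ v g ρ)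
      (rM φ v g ρ) := by
  have h3 := hT.t4 h hP (TV_hM hB hP h2 hQ) (TV_hC hB hP h2 hQ)
  rw [hT.up, hT.up] at h3
  exact NT_hat h2 h3

/-- the tests of an exact run -/
theorem exOK_ok (hA : AOK 3 lf A) (hP : PT 3 t) {w : ℝ} (hw : TOK 3 lf t ((w : ℝ) : ℂ) L.w)
    {m : ℕ} (h : exOK A L m = true) : TRH 3 lf t w (m + 1) (rhM A L.w (invM A L.w) m) := by
  obtain ⟨b1, b2⟩ := andB_t' h
  exact TRH_all hA hP hw (TOK.inv hA hP hw b1).1 m b2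

theorem rot_M (hA : AOK 3 lf A) (hP : PT 3 t) (hF : HOK 3 lf t v vd F)
    (hL : LOK 3 lf t p v vd g L) (hg : g.2 % 2 = 0) :
    TV 3 lf t (hM v (sDm (phi p) g.1 g.2)) (mth A F L.P (conjM A L.P)) := by
  refine TV_mth hA hP hF hg hL.P (tc (hL.P.conj hA) ?_)
  show star _ = _
  rw [star_pow]
  cases g.1 <;> simp

/-- **THE DISPATCHER** -/
theorem itK_ok (hN : AOKn 2 3 lf A) (hT : TKL lf (nM 3 lf) KV T) (hP : PT 3 t)
    (h2 : brJ 1 v v = 2) (hF : HOK 3 lf t v vd F)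
    {c : ℕ} (hG : LOK 3 lf t p v vd (cs c) L) (hR' : RL R (cs c) E)
    (hC : TOK 3 lf t ((R.ch (cs c) : ℝ) : ℂ) C) (hl : TV 3 lf t (hL v vd S) Sl)
    (hr : TV 3 lf t (hR v vd S') Sr) {P : ℕ}
    (h : itK A T F L E C c P k1 k2 Sl Sr d = true) :
    sat R (phi p) v vd (cs c) (Pd P) (cK v (KV k1 t)) (cK v (KV k2 t)) S S' := by
  have hA := nA hN
  have hB := AOK_nx hN
  have e : ∀ {a : ℕ}, Nat.beq (Nat.mod P (nat_lit 8)) a = true → P % 8 = a := fun h =>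
    Nat.eq_of_beq_eq_true h
  unfold itK itD at h
  rcases condB h with ⟨hk, h⟩ | h
  · rw [Pd_k, e hk]
    obtain ⟨b1, b2⟩ := andB_t' h
    exact t3b_ok hA hT hP h2 hl hr (rot_M hA hP hF hG (even_of b1)) b2
  rcases condB h with ⟨hk, h⟩ | h
  · rw [Pd_k, e hk]
    show NT _ _ (nX v vd (rM (phi p) v (cs c) (rn (nW (phi p) v (cs c)) (P / 8)))
      (rD (phi p) v vd (cs c) (rn (nW (phi p) v (cs c)) (P / 8))
        (h1 (nW (phi p) v (cs c)) (P / 8)) (Pool.Agent.Helper6.MONO.W2.h2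
          (nW (phi p) v (cs c)) (P / 8))) S S')
      (rM (phi p) v (cs c) (rn (nW (phi p) v (cs c)) (P / 8)))
    have h' : itE A T F L k1 k2 Sl Sr d (P / 8) = true := h
    generalize P / 8 = n at h' ⊢
    cases n with
    | zero => exact absurd h' Bool.false_ne_true
    | succ m =>
      obtain ⟨b1, b2⟩ := andB_t' (show andB (exOK A L m) (t3Q A T k1 k2 d Sl Sr
        (qX A F L (rhM A L.w (invM A L.w) m))) = true from h')
      have hx := exOK_ok hA hP hG.w b1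
      exact t3Q_ok hA hT hP h2 hl hr (ROK_E hA hP hF hG.s hG.sd hG.w hG.wd hx.r hx.h hx.g) b2
  rcases condB h with ⟨hk, h⟩ | h
  · rw [Pd_k, e hk]
    intro τ b1 b2
    obtain ⟨u, h0, h1, hP4, hρ⟩ := ro_ex hN hP hR' hC b1 b2
    have hL4 := LOK_up hN hG u
    exact t4Q_ok hN hT h2 hP4 hl hr (ROK_P hB hP4 (HOK_up hN hF u) hL4.s hL4.sd hL4.w
      hL4.wd hρ) h
  rcases condB h with ⟨hk, h⟩ | h
  · rw [Pd_k, e hk]
    intro τ b1 b2
    obtain ⟨u, h0, h1, hP4, hρ⟩ := ro_ex hN hP hR' hC b1 b2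
    have hL4 := LOK_up hN hG u
    exact t4Q_ok hN hT h2 hP4 hl hr (ROK_V hB hP4 (HOK_up hN hF u) hL4.s hL4.sd hL4.w
      hL4.wd hρ (H_cst hB hR' hP4)) h
  rcases condB h with ⟨hk, h⟩ | h
  · rw [Pd_k, e hk]
    intro τ b1 b2
    obtain ⟨u, h0, h1, hP4, hρ⟩ := ro_ex hN hP hR' hC b1 b2
    have hL4 := LOK_up hN hG u
    refine t4Q_ok hN hT h2 hP4 hl hr (ROK_E hB hP4 (HOK_up hN hF u) hL4.s hL4.sd hL4.w
      hL4.wd hρ (H_cst hB hR' hP4) (tc ((rr_cst hB hR' hP4).mul hB hP4 (H_cst hB hR' hP4)) ?_)) h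
    push_cast
    ring
  rcases condB h with ⟨hk, h⟩ | h
  · rw [Pd_k, e hk]
    intro τ b1 b2
    obtain ⟨u, h0, h1, hP4, hρ⟩ := ro_ex hN hP hR' hC b1 b2
    have hL4 := LOK_up hN hG u
    exact t4C_ok hB hT h2 hP4 (ROK_C hB hP4 (HOK_up hN hF u) hL4.s hL4.w hρ
      (rr_cst hB hR' hP4)) h
  exact absurd h Bool.false_ne_true

/-- **THE DISPATCHER FOR THE TABLE `RTK`** -/
theorem itK_K (hN : AOKn 2 3 lf A) (hT : TKL lf (nM 3 lf) KV T) (hP : PT 3 t)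
    (h2 : brJ 1 v v = 2) (hF : HOK 3 lf t v vd F)
    {tb : ℕ → LE} {bc : ℕ → ℕ → Prop} {c : ℕ} (hG : LOK 3 lf t p v vd (cs c) L)
    (hl : TV 3 lf t (hL v vd S) Sl) (hr : TV 3 lf t (hR v vd S') Sr) {P : ℕ}
    (h : itK A T F L (tb c) (chK A c (tb c) L.w) c P k1 k2 Sl Sr d = true) :
    sat (RTK tb (nW (phi p) v) bc) (phi p) v vd (cs c) (Pd P) (cK v (KV k1 t)) (cK v (KV k2 t))
      S S' :=
  itK_ok hN hT hP h2 hF hG (RL_K tb _ bc c) (ch_K (nA hN) hP hG.w) hl hr h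

end

end Pool.Agent.Helper91.TMK.IT
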