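import Pool.Agent.Helper26.TM.NBP
import Pool.Agent.Helper62.C75.NBT

/-!
Taylor model machine (MP_c75db0, star frame), row NB5: the theorems of `Helper62.NBT` (the models of
the projections of the rotation letters `(a, 2)` at a point) for machines `Mch`. The kernel
definitions and the machine free theorems are those of `Helper62.NBT`.
-/

set_option autoImplicit false
noncomputable section
namespace Pool.Agent.Helper91.TMK.NBT

open Matrix
open Pool.Agent.Helper90.C75
open Pool.Agent.Helper90.KMO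
open Pool.Agent.Helper86.CX (Cx andB)
open Pool.Agent.Helper86.CT (Alg Mo er mk cst addM subM mulM conjM invM invOK)
open Pool.Agent.Helper17.K9 (V9)
open Pool.Agent.Helper62.TVM (V3m oV addV)
open Pool.Agent.Helper62.LBM (erM)
open Pool.Agent.Helper62.NBM (SN muN)
open Pool.Agent.Helper62.NBP (cjN NP npM np0 SR SR.cj)
open Pool.Agent.Helper62.NBQ
open Pool.Agent.Helper62.NBT
open Pool.Agent.Helper6.MONO Pool.Agent.Helper6.MONO.W2
open Pool.Agent.Helper26.XM (oJ rfJ_oJ rfd_oJ)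
open Pool.Agent.Helper21.NB (rB rBd)
open Pool.Agent.Helper91.TMK.LBM (TOK_er)
open Pool.Agent.Helper91.TMK.NBP (TSG TNP TNP_main)

section

variable {α : Type} {D : ℕ} {lf : Mch α} {A : Alg α} {t : ℕ → ℝ}

theorem TV_ot (hA : AOK D lf A) (hP : PT D t) {v : V3} {V : V3m α} (hv : TW D lf t v V) :
    TV D lf t (ot v (yv v)) (oV A V V) := hv.o hA hP hv

theorem TV_ot' (hA : AOK D lf A) (hP : PT D t) {v vd : V3} {V Vd : V3m α} (hv : TW D lf t v V)
    (hd : TW D lf t vd Vd) :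
    TV D lf t (ot vd (yv v) + ot v (yv vd)) (addV A (oV A Vd V) (oV A V Vd)) :=
  (hd.o hA hP hv).add hA (hv.o hA hP hd)

/-- MODELS OF THE PROJECTIONS OF `(a, 2)` AT A POINT -/
theorem TNP_a (hA : AOK D lf A) (hP : PT D t) {p : ℕ} {v vd : V3} {V Vd : V3m α}
    (hv : TW D lf t v V) (hd : TW D lf t vd Vd) (h2 : brJ 1 v v = 2) (h2' : (brJ 1 vd v).re = 0)
    {E : Mo α} (hE : TOK D lf t (ep (phi p)) E) {C s th h hdd g ts : ℝ} {T Td : ℂ} {Nm : SN α}
    (H : SR (muN C s) h g th hdd ts T Td) (hM : TSG D lf t (muN C s) h g th hdd ts Nm)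
    (hT : (rB p v).trace = T) (hTd : (rBd p v vd).trace = Td) (a : Bool) :
    ∃ P N Pd Nd : Mt, SPC (rfJ 1 v * sDm (phi p) a 2) (rfd 1 0 v vd * sDm (phi p) a 2)
        (muA a C s) (-star (muA a C s) ^ 2) (thA a th) (-2 * thA a th) h hdd P N Pd Nd ∧
      TNP D lf t P N Pd Nd (npA A Nm E V Vd a) := by
  obtain ⟨P, N, Pd, Nd, K⟩ := spc_a h2 h2' H hT hTd a
  refine ⟨P, N, Pd, Nd, K, ?_⟩
  have hd0 : TOK D lf t (dA (phi p) a) (erM A E a (nat_lit 2)) := TOK_er hA hP hE a 2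
  have eT := tr_a hT a
  have eTd := trd_a hTd a
  rw [bE_of] at eT K
  rw [bdE_of] at eTd K
  cases a with
  | false =>
    exact TNP_main hA hP H hM (TV_ot hA hP hv) (TV_ot' hA hP hv hd) hd0 (hd0.conj hA)
      (yv_two h2) (dA_mul _ _) (yv_tan h2') eT eTd K
  | true =>
    exact TNP_main hA hP H.cj (hM.cj hA) (TV_ot hA hP hv) (TV_ot' hA hP hv hd) hd0 (hd0.conj hA)
      (yv_two h2) (dA_mul _ _) (yv_tan h2') eT eTd K

end

end Pool.Agent.Helper91.TMK.NBT
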