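import Pool.Agent.Helper26.TM.XM
import Pool.Agent.Helper26.C75.XH

/-!
Taylor model machine (MP_c75db0, star frame): the theorems of `Helper26.XH` (the items in the
hatted coordinates) for machines `Mch`. The kernel definitions are those of `Helper26.XH`.
-/

set_option autoImplicit false
noncomputable section
namespace Pool.Agent.Helper91.TMK.XH

open Pool.Agent.Helper90.KMO
open Pool.Agent.Helper86.CX (Cx)
open Pool.Agent.Helper86.CT (Alg Mo er mk cst addM subM mulM conjM)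
open Pool.Agent.Helper17.K9 (V9)
open Pool.Agent.Helper62.TVM (cstC zeM negM hfM re2M nsqM dot3 V3m C3 C9 cstW cstV addW subW negW
  smW cjW jW hdW dtW addV subV negV smV hfV hdV mulV ctV trV ouV oV dlV drV dgV adV sbV mvV)
open Pool.Agent.Helper26.XM (oneM cMm cdM FX fx1 fxM lM rM' ajV gaV xM x0M xtM rtM RX rx3 rxM mrM
  drM pM qM xpM xrM oJ lR rR nX_LR rfJ_oJ rfd_oJ rM_oJ rD_oJ adJ_apply qR oJ_mul mul_oJ run_eq
  sR xR tR uR rM_run rD_run sDm_even)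
open Pool.Agent.Helper26.XH (FH fh1 fhM lhM rhM' piM pi0 njM xij mth rh3 rh2 rhE rp3 rhV rq3 rhP
  rc3 rhC hX hM hH hL hR hX_eq oJ_c hM_oJ hM_add hM_sub hM_smul hM_one sH xH brJ_ns nsd_eq nW_brJ
  c_s c_x hM_rM hM_rD rMr_oJ xC uC c_v hM_rc)
open Pool.Agent.Helper91.TMK.XM
open Pool.Agent.Helper6.MONO.W2 (Sy J1 nG nX rfJ rfd adJ nR nRd nRr nW nWd rM rMr rD ns nsd sDm nc
  brJ rfJ_sqM rfJ_mulVec)

section

variable {α : Type} {D : ℕ} {lf : Mch α} {A : Alg α} {t : ℕ → ℝ}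
variable {v vd : Fin 3 → ℂ} {Vm Vd : V3m α} {F : FH α}

/-- MODELS OF THE BOX -/
structure HOK (D : ℕ) (lf : Mch α) (t : ℕ → ℝ) (v vd : Fin 3 → ℂ) (F : FH α) : Prop where
  hv : TW D lf t v F.v
  hvd : TW D lf t vd F.vd
  hz : TOK D lf t (brJ 1 vd v) F.z
  hc : TV D lf t (rfJ 1 v) F.c
  hh : TV D lf t (hH v vd) F.h

theorem HOK_fh (hA : AOK D lf A) (hP : PT D t) (hv : TW D lf t v Vm) (hd : TW D lf t vd Vd) :
    HOK D lf t v vd (fhM A Vm Vd) := by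
  refine ⟨hv, hd, ?_, TV_c hA hP hv, ((TV_cd hA hP hv hd).mul hA hP (TV_c hA hP hv)).half hA hP⟩
  refine tc (hd.dt hA hP (hv.jw hA hP)) ?_
  simp [brJ]
  ring

variable {S S' M Dm : Matrix (Fin 3) (Fin 3) ℂ} {U Mm Dd L R : V9 α}

theorem TV_lh (hA : AOK D lf A) (hP : PT D t) (hF : HOK D lf t v vd F) (hS : TV D lf t S U) :
    TV D lf t (hL v vd S) (lhM A F U) := (hF.hc.mul hA hP hS).sub hA hF.hh
theorem TV_rh (hA : AOK D lf A) (hP : PT D t) (hF : HOK D lf t v vd F) (hS : TV D lf t S U) :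
    TV D lf t (hR v vd S) (rhM' A F U) := (hS.mul hA hP hF.hc).sub hA hF.hh

theorem TV_pi (hA : AOK D lf A) (hP : PT D t) (hM' : TV D lf t (hM v M) Mm)
    (hD : TV D lf t (hM v Dm) Dd) (hl : TV D lf t (hL v vd S) L) :
    TV D lf t (hM v Dm + hM v M * hL v vd S) (piM A Mm Dd L) := hD.add hA (hM'.mul hA hP hl)
theorem TV_pi0 (hA : AOK D lf A) (hP : PT D t) (hM' : TV D lf t (hM v M) Mm)
    (hl : TV D lf t (hL v vd S) L) :
    TV D lf t (hM v 0 + hM v M * hL v vd S) (pi0 A Mm L) :=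
  (hM'.mul hA hP hl).congr (by unfold hM; rw [mul_zero, zero_mul, zero_add])
theorem TV_nj (hA : AOK D lf A) (hP : PT D t) (hM' : TV D lf t (hM v M) Mm)
    (hr : TV D lf t (hR v vd S') R) :
    TV D lf t (hR v vd S' * hM v M) (njM A Mm R) := hr.mul hA hP hM'

/-- THE ITEM OF A PAIR -/
theorem TV_ij (hA : AOK D lf A) (h : brJ 1 v v = 2) {P N : V9 α}
    (hp : TV D lf t (hM v Dm + hM v M * hL v vd S) P) (hn : TV D lf t (hR v vd S' * hM v M) N) :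
    TV D lf t (hX v vd M Dm S S') (xij A P N) :=
  (hp.sub hA hn).congr (hX_eq (rfJ_sqM h) M Dm S S').symm

/-- rotations -/
theorem TV_mth (hA : AOK D lf A) (hP : PT D t) (hF : HOK D lf t v vd F) {φ : ℝ} {g : Sy}
    (hg : g.2 % 2 = 0) {E F' : Mo α}
    (he : TOK D lf t ((if g.1 then star (Pool.Agent.Helper6.MONO.W2.ep φ) else
        Pool.Agent.Helper6.MONO.W2.ep φ) ^ g.2) E)
    (hf : TOK D lf t ((if g.1 then Pool.Agent.Helper6.MONO.W2.ep φ else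
        star (Pool.Agent.Helper6.MONO.W2.ep φ)) ^ g.2) F') :
    TV D lf t (hM v (sDm φ g.1 g.2)) (mth A F E F') := by
  have hw : TW D lf t ![(if g.1 then star (Pool.Agent.Helper6.MONO.W2.ep φ) else
        Pool.Agent.Helper6.MONO.W2.ep φ) ^ g.2, (if g.1 then Pool.Agent.Helper6.MONO.W2.ep φ else
        star (Pool.Agent.Helper6.MONO.W2.ep φ)) ^ g.2, 1] ⟨E, F', oneM A⟩ :=
    ⟨tc he (by simp), tc hf (by simp), tc (TOK_one hA hP) (by simp)⟩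
  refine (((hF.hc.dr hA hP hw)).mul hA hP hF.hc).congr ?_
  unfold hM
  rw [sDm_even φ g.1 g.2 hg]
  congr 2
  ext i j
  fin_cases i <;> fin_cases j <;> simp [Matrix.diagonal]

variable {φ : ℝ} {g : Sy} {ρ a1 a2 : ℝ} {Vs Vsd : V3m α} {W Wd Rm A1 A2 : Mo α}

theorem TW_sH (hA : AOK D lf A) (hP : PT D t) (hF : HOK D lf t v vd F)
    (hs : TW D lf t (ns φ v g.1 g.2) Vs) (hw : TOK D lf t ((nW φ v g : ℝ) : ℂ) W)
    (hr : TOK D lf t ((ρ : ℝ) : ℂ) Rm) :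
    TW D lf t (sH φ v g ρ) (subW A Vs (smW A (subM A W Rm) F.v)) :=
  hs.sub hA (hF.hv.smul hA hP (tc (hw.sub hA hr) (by push_cast; ring)))

theorem TOK_n (hA : AOK D lf A) (hP : PT D t)
    (hs : TW D lf t (ns φ v g.1 g.2) Vs) (hsd : TW D lf t (nsd φ vd g.1 g.2) Vsd) :
    TOK D lf t (nc φ vd g.1 g.2 * star (nc φ v g.1 g.2)) (mulM A Vsd.a (conjM A Vs.a)) :=
  tc (hsd.a.mul hA hP (hs.a.conj hA)) (by simp [ns, nsd])

theorem TOK_t (hA : AOK D lf A) (hP : PT D t) (hw : TOK D lf t ((nW φ v g : ℝ) : ℂ) W)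
    (hr : TOK D lf t ((ρ : ℝ) : ℂ) Rm) :
    TOK D lf t (tR φ v g ρ) (subM A (addM A W (mulM A Rm Rm)) (mulM A W Rm)) :=
  tc ((hw.add hA (hr.mul hA hP hr)).sub hA (hw.mul hA hP hr)) (by unfold tR; push_cast; ring)

/-- the data of a run in hatted coordinates, `a1` and `a2` (parts ex, v1) -/
theorem ROK_E (hA : AOK D lf A) (hP : PT D t) (hF : HOK D lf t v vd F)
    (hs : TW D lf t (ns φ v g.1 g.2) Vs) (hsd : TW D lf t (nsd φ vd g.1 g.2) Vsd)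
    (hw : TOK D lf t ((nW φ v g : ℝ) : ℂ) W) (hwd : TOK D lf t ((nWd φ v vd g : ℝ) : ℂ) Wd)
    (hr : TOK D lf t ((ρ : ℝ) : ℂ) Rm) (h1 : TOK D lf t ((a1 : ℝ) : ℂ) A1)
    (h2 : TOK D lf t ((a2 : ℝ) : ℂ) A2) :
    ROK D lf t (sH φ v g ρ) (xH φ v vd g ρ a1 a2) (tR φ v g ρ) (uR φ v vd g ρ a1 a2)
      (rhE A F Vs Vsd W Wd Rm A1 A2) := by
  have hS := TW_sH hA hP hF hs hw hr
  have g1 : TOK D lf t ((nWd φ v vd g * a1 : ℝ) : ℂ) (mulM A Wd A1) :=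
    tc (hwd.mul hA hP h1) (by push_cast; ring)
  have g2 : TOK D lf t ((nWd φ v vd g * a2 : ℝ) : ℂ) (mulM A Wd A2) :=
    tc (hwd.mul hA hP h2) (by push_cast; ring)
  have g3 : TOK D lf t ((1 / 2 * (nWd φ v vd g * a1) : ℝ) : ℂ) (hfM A (mulM A Wd A1)) :=
    tc (TOK_hf hA hP g1) (by push_cast; ring)
  have hT := TOK_t hA hP hw hr
  have hn := TOK_n hA hP hs hsd
  refine ⟨hS, ?_, hT, ?_⟩
  · exact ((hsd.sub hA (hF.hvd.smul hA hP hr)).add hA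
      (hF.hv.smul hA hP (((hr.mul hA hP hF.hz).sub hA hn).sub hA g2))).add hA (hS.smul hA hP g3)
  · refine tc ((((hwd.mul hA hP hr).sub hA hwd).sub hA (g1.mul hA hP hT)).add hA
      (g2.mul hA hP ((hr.add hA hr).sub hA hw))) ?_
    unfold tR uR
    push_cast
    ring

/-- `a2 = 0` (part v0) -/
theorem ROK_V (hA : AOK D lf A) (hP : PT D t) (hF : HOK D lf t v vd F)
    (hs : TW D lf t (ns φ v g.1 g.2) Vs) (hsd : TW D lf t (nsd φ vd g.1 g.2) Vsd)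
    (hw : TOK D lf t ((nW φ v g : ℝ) : ℂ) W) (hwd : TOK D lf t ((nWd φ v vd g : ℝ) : ℂ) Wd)
    (hr : TOK D lf t ((ρ : ℝ) : ℂ) Rm) (h1 : TOK D lf t ((a1 : ℝ) : ℂ) A1) :
    ROK D lf t (sH φ v g ρ) (xH φ v vd g ρ a1 0) (tR φ v g ρ) (uR φ v vd g ρ a1 0)
      (rhV A F Vs Vsd W Wd Rm A1) := by
  have hS := TW_sH hA hP hF hs hw hr
  have g1 : TOK D lf t ((nWd φ v vd g * a1 : ℝ) : ℂ) (mulM A Wd A1) :=
    tc (hwd.mul hA hP h1) (by push_cast; ring)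
  have g3 : TOK D lf t ((1 / 2 * (nWd φ v vd g * a1) : ℝ) : ℂ) (hfM A (mulM A Wd A1)) :=
    tc (TOK_hf hA hP g1) (by push_cast; ring)
  have hT := TOK_t hA hP hw hr
  have hn := TOK_n hA hP hs hsd
  refine ⟨hS, ?_, hT, ?_⟩
  · refine (((hsd.sub hA (hF.hvd.smul hA hP hr)).add hA
      (hF.hv.smul hA hP ((hr.mul hA hP hF.hz).sub hA hn))).add hA (hS.smul hA hP g3)).congr ?_
    unfold xH
    rw [mul_zero, Complex.ofReal_zero, sub_zero]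
  · refine tc (((hwd.mul hA hP hr).sub hA hwd).sub hA (g1.mul hA hP hT)) ?_
    unfold tR uR
    push_cast
    ring

/-- `a1 = a2 = 0` (part pc) -/
theorem ROK_P (hA : AOK D lf A) (hP : PT D t) (hF : HOK D lf t v vd F)
    (hs : TW D lf t (ns φ v g.1 g.2) Vs) (hsd : TW D lf t (nsd φ vd g.1 g.2) Vsd)
    (hw : TOK D lf t ((nW φ v g : ℝ) : ℂ) W) (hwd : TOK D lf t ((nWd φ v vd g : ℝ) : ℂ) Wd)
    (hr : TOK D lf t ((ρ : ℝ) : ℂ) Rm) :
    ROK D lf t (sH φ v g ρ) (xH φ v vd g ρ 0 0) (tR φ v g ρ) (uR φ v vd g ρ 0 0)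
      (rhP A F Vs Vsd W Wd Rm) := by
  have hS := TW_sH hA hP hF hs hw hr
  have hT := TOK_t hA hP hw hr
  have hn := TOK_n hA hP hs hsd
  refine ⟨hS, ?_, hT, ?_⟩
  · refine ((hsd.sub hA (hF.hvd.smul hA hP hr)).add hA
      (hF.hv.smul hA hP ((hr.mul hA hP hF.hz).sub hA hn))).congr ?_
    unfold xH
    rw [mul_zero, mul_zero, Complex.ofReal_zero, sub_zero, zero_smul, add_zero]
  · refine tc ((hwd.mul hA hP hr).sub hA hwd) ?_
    unfold uR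
    push_cast
    ring

/-- the recession direction (part rc) -/
theorem ROK_C (hA : AOK D lf A) (hP : PT D t) (hF : HOK D lf t v vd F) {rr : ℝ} {RR : Mo α}
    (hs : TW D lf t (ns φ v g.1 g.2) Vs) (hw : TOK D lf t ((nW φ v g : ℝ) : ℂ) W)
    (hr : TOK D lf t ((ρ : ℝ) : ℂ) Rm) (hrr : TOK D lf t ((rr : ℝ) : ℂ) RR) :
    ROK D lf t (sH φ v g ρ) (xC φ v g ρ rr) (tR φ v g ρ) (uC φ v g ρ rr)
      (rhC A F Vs W Rm RR) := by
  have hS := TW_sH hA hP hF hs hw hr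
  have hT := TOK_t hA hP hw hr
  have h2 : TOK D lf t (1 / 2 : ℂ) (cst A (nat_lit 140737488355328) (nat_lit 0)) :=
    TOK.cst' hA hP (by unfold UU; norm_num)
  refine ⟨hS, (hS.smul hA hP h2).sub hA (hF.hv.smul hA hP hrr), hT, ?_⟩
  refine tc ((hrr.mul hA hP ((hr.add hA hr).sub hA hw)).sub hA hT) ?_
  unfold uC
  push_cast
  ring

variable {Q : RX α}

/-- `c rM c` -/
theorem TV_hM (hA : AOK D lf A) (hP : PT D t) (h : brJ 1 v v = 2) {x : Fin 3 → ℂ} {σ : ℂ}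
    (hQ : ROK D lf t (sH φ v g ρ) x (tR φ v g ρ) σ Q) :
    TV D lf t (hM v (rM φ v g ρ)) (mrM A Q) := (TV_mr hA hP hQ).congr (hM_rM h φ g ρ).symm

/-- `c rD c` -/
theorem TV_hD (hA : AOK D lf A) (hP : PT D t) (h : brJ 1 v v = 2)
    (hQ : ROK D lf t (sH φ v g ρ) (xH φ v vd g ρ a1 a2) (tR φ v g ρ) (uR φ v vd g ρ a1 a2) Q) :
    TV D lf t (hM v (rD φ v vd g ρ a1 a2)) (drM A Q) :=
  (TV_dr hA hP hQ).congr (hM_rD h φ g ρ a1 a2).symm

/-- `c (rM + rr rMr) c` -/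
theorem TV_hC (hA : AOK D lf A) (hP : PT D t) (h : brJ 1 v v = 2) {rr : ℝ}
    (hQ : ROK D lf t (sH φ v g ρ) (xC φ v g ρ rr) (tR φ v g ρ) (uC φ v g ρ rr) Q) :
    TV D lf t (hM v (rM φ v g ρ + ((rr : ℝ) : ℂ) • rMr φ v g ρ)) (drM A Q) :=
  (TV_dr hA hP hQ).congr (hM_rc h φ g ρ rr).symm

end

end Pool.Agent.Helper91.TMK.XH
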