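import Pool.Agent.Helper21.TM.M7T
import Pool.Agent.Helper26.TM.XH
import Pool.Agent.Helper26.C75.IT2

/-!
Taylor model machine (MP_c75db0, star frame), row M7 (A): THE DISPATCHER of the items (kernel side) for machines
`Mch` with three parameters, algebra `A`, and their extension `nx A` by the parameter of a family.
Part codes `P`, `k = P % 8`, `n = P / 8`: 0 rotation, 1 exact run, 2 - 4 pieces of a family,
5 recession direction.
-/

set_option autoImplicit false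
noncomputable section
namespace Pool.Agent.Helper91.TMK.IT

open Matrix
open Pool.Agent.Helper90.KMO (UU UU_pos UUc_ne cz zv zv_p)
open Pool.Agent.Helper86.C75 (Z)
open Pool.Agent.Helper86.CX (Cx andB)
open Pool.Agent.Helper86.CT (N3 Alg Mo KM mk cst addM subM mulM conjM invM invOK nx)
open Pool.Agent.Helper17.K9 (V9)
open Pool.Agent.Helper62.TVM (cstC zeM negM hfM re2M nsqM dot3 V3m C3 C9 cstW cstV addW subW negW
  smW cjW jW hdW dtW addV subV negV smV hfV hdV mulV ctV trV ouV oV dlV drV dgV adV sbV mvV)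
open Pool.Agent.Helper62.LBM (RH rhM rhOK)
open Pool.Agent.Helper51.FR (LE LM chM csM RTK andB_t' trK NZ_trK)
open Pool.Agent.Helper26.XM (oneM ajV gaV RX mrM drM tR uR)
open Pool.Agent.Helper26.XH (FH fhM lhM rhM' piM pi0 njM xij mth rhE rhV rhP rhC hX hM hH hL hR sH xH
  xC uC hM_rM)
open Pool.Agent.Helper26.IT (NT_hat RL RL_K even_of condB Pd_k)
open Pool.Agent.Helper91.BX (crM upM upW upV tu)
open Pool.Agent.Helper91.TMK.XM
open Pool.Agent.Helper91.TMK.XH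
open Pool.Agent.Helper91.TMK.SW
open Pool.Agent.Helper6.MONO (V3)
open Pool.Agent.Helper6.MONO.W2 (Mt NT NZ IN rfJ nX rM rMr rD rn h1 h2 nW nWd ns nsd Sy sDm phi Prt
  RPar sat sati Pd cs sc sc_cs brJ rfJ_sq rfJ_uni rfJ_sqM ep)

variable {α κ γ : Type}

/-- lifts of the models of the box and of a letter -/
def upH (F : FH α) : FH (N3 α) := ⟨upW F.v, upW F.vd, upM F.z, upV F.c, upV F.h⟩
def upL (L : LM α) : LM (N3 α) := ⟨upM L.E, upM L.P, upM L.w, upM L.wd, upW L.s, upW L.sd⟩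

/-- the model of `ch` in the table `RTK` -/
def chK (A : Alg α) (c : Nat) (E : LE) (W : Mo α) : Mo α :=
  cond (Nat.beq (Nat.div c (nat_lit 2)) (nat_lit 1)) (csM A E.e.al E.e.be W)
    (chM A E.e.al E.e.be W)

/-- the parameter `ρ = τ ch` of piece `i` -/
def roM (A : Alg α) (E : LE) (C : Mo α) (i : Nat) : Mo (N3 α) :=
  mulM (nx A) (crM A (E.tau.getD i (nat_lit 0)) (E.tau.getD (Nat.succ i) (nat_lit 0))) (upM C)

/-- the runs of the four kinds of pieces -/
def qP (A : Alg α) (F : FH (N3 α)) (L : LM (N3 α)) (r : Mo (N3 α)) : RX (N3 α) :=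
  rhP (nx A) F L.s L.sd L.w L.wd r
def qV (A : Alg α) (F : FH (N3 α)) (L : LM (N3 α)) (H : Nat) (r : Mo (N3 α)) : RX (N3 α) :=
  rhV (nx A) F L.s L.sd L.w L.wd r (cst (nx A) H (nat_lit 0))
def qE1 (A : Alg α) (F : FH (N3 α)) (L : LM (N3 α)) (r h : Mo (N3 α)) : RX (N3 α) :=
  rhE (nx A) F L.s L.sd L.w L.wd r h
    (mulM (nx A) (cst (nx A) (nat_lit 93824992236886) (nat_lit 0)) h)
def qE (A : Alg α) (F : FH (N3 α)) (L : LM (N3 α)) (H : Nat) (r : Mo (N3 α)) : RX (N3 α) :=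
  qE1 A F L r (cst (nx A) H (nat_lit 0))
def qC (A : Alg α) (F : FH (N3 α)) (L : LM (N3 α)) (r : Mo (N3 α)) : RX (N3 α) :=
  rhC (nx A) F L.s L.w r (cst (nx A) (nat_lit 93824992236886) (nat_lit 0))

def t3a (A : Alg α) (T : TK α κ γ) (k1 k2 : κ) (g : γ) (L R M D : V9 α) : Bool :=
  T.t3 k1 k2 g M (xij A (piM A M D L) (njM A M R))
def t3b (A : Alg α) (T : TK α κ γ) (k1 k2 : κ) (g : γ) (L R M : V9 α) : Bool :=
  T.t3 k1 k2 g M (xij A (pi0 A M L) (njM A M R))
/-- an exact run -/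
def t3Q (A : Alg α) (T : TK α κ γ) (k1 k2 : κ) (g : γ) (L R : V9 α) (Q : RX α) : Bool :=
  t3a A T k1 k2 g L R (mrM A Q) (drM A Q)
def t4a (A : Alg α) (T : TK α κ γ) (k1 k2 : κ) (g : γ) (L R M D : V9 (N3 α)) : Bool :=
  T.t4 k1 k2 g M (xij (nx A) (piM (nx A) M D L) (njM (nx A) M R))
/-- a piece of a family -/
def t4Q (A : Alg α) (T : TK α κ γ) (k1 k2 : κ) (g : γ) (L R : V9 (N3 α)) (Q : RX (N3 α)) : Bool :=
  t4a A T k1 k2 g L R (mrM (nx A) Q) (drM (nx A) Q)
/-- a recession direction -/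
def t4C (A : Alg α) (T : TK α κ γ) (k1 k2 : κ) (g : γ) (Q : RX (N3 α)) : Bool :=
  T.t4 k1 k2 g (mrM (nx A) Q) (drM (nx A) Q)

/-- kind 0 -/
def itR (A : Alg α) (T : TK α κ γ) (F : FH α) (L : LM α) (c : Nat) (k1 k2 : κ) (Sl Sr : V9 α)
    (g : γ) : Bool :=
  andB (Nat.beq (Nat.mod (Nat.div c (nat_lit 2)) (nat_lit 2)) (nat_lit 0))
    (t3b A T k1 k2 g Sl Sr (mth A F L.P (conjM A L.P)))
/-- the data of an exact run (`n = m + 1`) -/
def qX (A : Alg α) (F : FH α) (L : LM α) (x : RH α) : RX α := rhE A F L.s L.sd L.w L.wd x.r x.h x.g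
/-- the tests of an exact run -/
def exOK (A : Alg α) (L : LM α) (m : Nat) : Bool :=
  andB (invOK A L.w) (rhOK A L.w (invM A L.w) m)
/-- kind 1 -/
def itE (A : Alg α) (T : TK α κ γ) (F : FH α) (L : LM α) (k1 k2 : κ) (Sl Sr : V9 α) (g : γ)
    (n : Nat) : Bool :=
  Nat.rec (motive := fun _ => Bool) false
    (fun m _ => andB (exOK A L m)
      (t3Q A T k1 k2 g Sl Sr (qX A F L (rhM A L.w (invM A L.w) m)))) n

/-- the kinds, `k = P % 8`, `n = P / 8` -/
def itD (A : Alg α) (T : TK α κ γ) (F : FH α) (L : LM α) (E : LE) (C : Mo α) (c : Nat) (k1 k2 : κ)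
    (Sl Sr : V9 α) (g : γ) (k n : Nat) : Bool :=
  cond (Nat.beq k (nat_lit 0)) (itR A T F L c k1 k2 Sl Sr g)
    (cond (Nat.beq k (nat_lit 1)) (itE A T F L k1 k2 Sl Sr g n)
      (cond (Nat.beq k (nat_lit 2))
        (t4Q A T k1 k2 g (upV Sl) (upV Sr) (qP A (upH F) (upL L) (roM A E C n)))
        (cond (Nat.beq k (nat_lit 3))
          (t4Q A T k1 k2 g (upV Sl) (upV Sr) (qV A (upH F) (upL L) E.e.H (roM A E C n)))
          (cond (Nat.beq k (nat_lit 4))
            (t4Q A T k1 k2 g (upV Sl) (upV Sr) (qE A (upH F) (upL L) E.e.H (roM A E C n)))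
            (cond (Nat.beq k (nat_lit 5)) (t4C A T k1 k2 g (qC A (upH F) (upL L) (roM A E C n)))
              false)))))

/-- **ONE ITEM**: `F` box, `L` letter, `E` family, `C` model of `ch`, `c` code of the syllable,
`P` code of the part, `Sl`, `Sr` models of `L^` and `R^` -/
def itK (A : Alg α) (T : TK α κ γ) (F : FH α) (L : LM α) (E : LE) (C : Mo α) (c P : Nat)
    (k1 k2 : κ) (Sl Sr : V9 α) (g : γ) : Bool :=
  itD A T F L E C c k1 k2 Sl Sr g (Nat.mod P (nat_lit 8)) (Nat.div P (nat_lit 8))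

end Pool.Agent.Helper91.TMK.IT
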