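import Pool.Agent.Helper55.TM.CV
import Pool.Agent.Helper84.TM.CTM
import Pool.Agent.Helper84.TM.NX
import Pool.Agent.Helper91.TM.S
import Pool.Agent.Helper91.TM.Q
import Pool.Agent.Helper21.TM.M7A

/-!
Taylor model machine (MP_c75db0, star frame): THE MACHINE OF THE CELLS (degree `6`, Helper91's `AT`,
conversion Helper55's `cvV`) and its laws.
-/

set_option autoImplicit false
noncomputable section
namespace Pool.Agent.Helper26.TMI

open Pool.Agent.Helper91.TM (TP AT lfT VLT mulT addT subT csT qtT sqT rcT AT_okn CD3 csT_ok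
  addT_ok subT_ok mulT_ok sq3 sq4 sq5 oneT)
open Pool.Agent.Helper91.TMK.SW (Mn MnL)
open Pool.Agent.Helper55.CV (cvV cvV_ok)

theorem rc_vl (n : ℕ) : VLT (rcT n) := (csT_ok _).1
theorem one_vl : VLT oneT := (csT_ok _).1

/-- the approximate root is valid -/
theorem sq_vl {x : TP} (hx : VLT x) (s i : ℕ) : VLT (sqT s i x) := by
  have m := fun {x y : TP} (hx : VLT x) (hy : VLT y) => (mulT_ok hx hy).1
  have a := fun {x y : TP} (hx : VLT x) (hy : VLT y) => (addT_ok hx hy).1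
  have b := fun {x y : TP} (hx : VLT x) (hy : VLT y) => (subT_ok hx hy).1
  have hu : VLT (subT (mulT (rcT i) x) oneT) := b (m (rc_vl _) hx) one_vl
  unfold sqT sq3 sq4 sq5
  exact m (rc_vl _) (b (b (a one_vl (m (rc_vl _) hu)) (m (m hu hu) (b (rc_vl _) (m (rc_vl _) hu))))
    (m (m (m hu hu) (m hu hu)) (a (b (rc_vl _) (m (rc_vl _) hu)) (m (rc_vl _) (m hu hu)))))

/-- THE MACHINE -/
def MT : Mn TP := ⟨AT, qtT, sqT, cvV, Pool.Agent.Helper91.TMK.TST.nxV cvV⟩

/-- **ITS LAWS** -/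
theorem MT_ok : MnL lfT MT where
  n := AT_okn
  qd := CD3
  sq := fun h => sq_vl h _ _
  V := cvV_ok
  V4 := Pool.Agent.Helper91.TMK.TST.CvtL.nx cvV_ok

end Pool.Agent.Helper26.TMI
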