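import Pool.Agent.Helper51.TM.LBM
import Pool.Agent.Helper62.C75.NBM

/-!
Taylor model machine (MP_c75db0, star frame), row NB5: the theorems of `Helper62.NBM` (models of the
spectral numbers of a rotation letter) for machines `Mch`. The kernel definitions are those of
`Helper62.NBM` with two changes: the disc of the sign tests is centred at `2 ^ 8` (values up to
`2 ^ 9`), and the test that the values of `c` are real is replaced by the radius `rhM` (the bounds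
`nb` of the Taylor machine are never `0`). The numbers `c`, `s` of the data have to be valid.
-/

set_option autoImplicit false
noncomputable section
namespace Pool.Agent.Helper91.TMK.NBM

open Pool.Agent.Helper90.C75
open Pool.Agent.Helper90.KMO
open Pool.Agent.Helper86.C75 (Z)
open Pool.Agent.Helper86.CX (Cx andB)
open Pool.Agent.Helper86.CT (Alg Mo er mk cst addM subM mulM conjM invM invOK)
open Pool.Agent.Helper17.K9 (V9)
open Pool.Agent.Helper62.TVM (cstC zeM negM hfM re2M)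
open Pool.Agent.Helper62.SQM (sqM cenOK sqOK)
open Pool.Agent.Helper62.LBM (onM)
open Pool.Agent.Helper62.NBC (gB Br)
open Pool.Agent.Helper62.NBM (dbM iM u8M ga1 ga2 gbM utM wtM b3M SN ND snF
  snM muM s4M hM c4M qdM itM tsM hdM sn3 sn2 sn1 sn0 sq0 gN muN thN hdN)
open Pool.Agent.Helper91.TMK.LBM (TOK_on)

/-! ### the kernel side -/

/-- the real part is positive (values up to `2 ^ 9`) -/
def psB {α : Type} (A : Alg α) (F : Mo α) : Bool :=
  cenOK A (nat_lit 1) (nat_lit 72057594037927936) F.r F.v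
/-- bound of the imaginary parts -/
def rhM {α : Type} (A : Alg α) (c : α) : Nat := A.nb (A.sub c (A.cj c))
def tp1 {α : Type} (A : Alg α) (T U W : Mo α) : Bool := andB (psB A U) (psB A (b3M A (re2M A T) W))
def yp1 {α : Type} (A : Alg α) (U W y z : Mo α) : Bool :=
  andB (andB (psB A y) (psB A (subM A (hfM A (onM A)) z)))
    (andB (psB A (gbM A U W y)) (psB A (negM A (gbM A U W z))))
/-- the tests of `C` with the radius `r`, `ρ` the radius of the real part -/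
def yp2 {α : Type} (A : Alg α) (U W : Mo α) (c : α) (r ρ : Nat) : Bool :=
  andB (Nat.ble ρ (nat_lit 1000)) (yp1 A U W (subM A (mk A c ρ) (cst A r (nat_lit 0)))
    (addM A (mk A c ρ) (cst A r (nat_lit 0))))
def cOK {α : Type} (A : Alg α) (T : Mo α) (c : α) (r : Nat) : Bool :=
  andB (tp1 A T (utM A T) (wtM A T)) (yp2 A (utM A T) (wtM A T) c r (rhM A c))
/-- THE MODEL OF `C` -/
def cM {α : Type} (A : Alg α) (c : α) (r : Nat) : Mo α := mk A c (Nat.add r (rhM A c))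
/-- THE MODELS OF THE SPECTRAL NUMBERS -/
def spM {α : Type} (A : Alg α) (T Td : Mo α) (d : ND α) : SN α :=
  sn0 A T Td (cM A d.c d.r) (snM A (cM A d.c d.r) d)
/-- THE TEST -/
def spOK {α : Type} (A : Alg α) (T : Mo α) (d : ND α) : Bool :=
  andB (cOK A T d.c d.r) (andB (sqOK A d.m d.n (snF A (cM A d.c d.r)) (mk A d.s (nat_lit 0)))
    (sq0 A T (cM A d.c d.r) (snM A (cM A d.c d.r) d)))

/-! ### the real side -/

section

variable {α : Type} {D : ℕ} {lf : Mch α} {A : Alg α} {t : ℕ → ℝ}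

theorem TOK_i (hA : AOK D lf A) (hP : PT D t) : TOK D lf t Complex.I (iM A) := by
  refine TOK_cstC hA hP ?_
  have e : (UU : ℂ) * Complex.I - cz ⟨Z.p (nat_lit 0), Z.p (nat_lit 281474976710656)⟩ = 0 := by
    apply Complex.ext
    · show ((UU : ℂ) * Complex.I).re - ((zv (Z.p (nat_lit 0)) : ℤ) : ℝ) = 0
      rw [zv_p]; simp
    · show ((UU : ℂ) * Complex.I).im - ((zv (Z.p (nat_lit 281474976710656)) : ℤ) : ℝ) = 0
      rw [zv_p]; unfold UU; simp
  rw [e, norm_zero]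
  exact Nat.cast_nonneg _

theorem TOK_db (hA : AOK D lf A) {f : ℂ} {F : Mo α} (hf : TOK D lf t f F) :
    TOK D lf t (2 * f) (dbM A F) := tc (hf.add hA hf) (by ring)

theorem ps_pos (hA : AOK D lf A) (hP : PT D t) {f : ℝ} {F : Mo α} (hf : TOK D lf t (f : ℂ) F)
    (h : psB A F = true) : 0 < f := by
  have h1 := TOK_lb hA hP hf (m := nat_lit 1) (c := nat_lit 72057594037927936) h
  rw [Complex.ofReal_re] at h1
  have h2 : ((nat_lit 1 : ℕ) : ℝ) = 1 := Nat.cast_one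
  rw [h2] at h1
  by_contra hc
  push Not at hc
  have := mul_nonpos_of_nonneg_of_nonpos UU_pos.le hc
  linarith

/-- the real part of a value, with radius -/
theorem rh_real (hA : AOK D lf A) (hP : PT D t) {c : α} (hc : lf.vl c)
    (h : Nat.ble (rhM A c) (nat_lit 1000) = true) :
    ∃ y : ℝ, ‖(UU : ℂ) * (y : ℂ) - lf.ev c t‖ ≤ (rhM A c : ℕ) := by
  have h1 : A.nb (A.sub c (A.cj c)) ≤ 1000 := Nat.le_of_ble_eq_true h
  have v1 := hA.vcj hc
  have v2 := hA.vsub hc v1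
  have g : lf.gd (A.sub c (A.cj c)) := hA.nbg v2 (lt_of_le_of_lt h1 (by norm_num))
  obtain ⟨g1, g2, e1⟩ := hA.sub hc v1 g
  obtain ⟨-, e2⟩ := hA.cj hc g2
  have h2 : ‖lf.ev c t - star (lf.ev c t)‖ ≤ (rhM A c : ℕ) := by
    have h3 := hA.mag v2 g t hP
    rwa [e1 t, e2 t] at h3
  set z := lf.ev c t with hz
  refine ⟨z.re / UU, ?_⟩
  have e3 : (UU : ℂ) * ((z.re / UU : ℝ) : ℂ) - z = -((1 / 2 : ℂ) * (z - star z)) := by
    have e4 : (UU : ℂ) * ((z.re / UU : ℝ) : ℂ) = (z.re : ℂ) := by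
      push_cast
      exact mul_div_cancel₀ _ UUc_ne
    rw [e4]
    apply Complex.ext
    · simp
    · simp
      ring
  rw [e3, norm_neg, norm_mul]
  have e5 : ‖(1 / 2 : ℂ)‖ = 1 / 2 := by norm_num
  rw [e5]
  have := norm_nonneg (z - star z)
  linarith

/-- its model -/
theorem TOK_rh (hA : AOK D lf A) {c : α} (hc : lf.vl c) {y : ℝ} {r : ℕ}
    (h : ‖(UU : ℂ) * (y : ℂ) - lf.ev c t‖ ≤ (r : ℕ)) : TOK D lf t (y : ℂ) (mk A c r) :=
  ⟨vt_mk hA hc _, fun _ => h⟩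

theorem TOK_gb (hA : AOK D lf A) (hP : PT D t) {a b y : ℝ} {U W Y : Mo α}
    (hU : TOK D lf t ((2 * a : ℝ) : ℂ) U) (hW : TOK D lf t ((2 * b : ℝ) * Complex.I) W)
    (hY : TOK D lf t (y : ℂ) Y) : TOK D lf t ((4 * gB a b y : ℝ) : ℂ) (gbM A U W Y) := by
  have yy := hY.mul hA hP hY
  have u8 := hU.add hA (TOK_db hA (TOK_db hA (TOK_db hA yy)))
  refine tc ((((TOK_on hA hP).sub hA yy).mul hA hP (u8.mul hA hP u8)).add hA
    ((hW.mul hA hP hW).mul hA hP yy)) ?_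
  unfold gB
  push_cast
  linear_combination (4 * (b : ℂ) ^ 2 * y ^ 2) * Complex.I_sq

/-- THE MODEL OF `C` -/
theorem TOK_C (hA : AOK D lf A) (hP : PT D t) {T : ℂ} {Tm : Mo α} (hT : TOK D lf t T Tm)
    {C s h : ℝ} (H : Br (T.re - 1) T.im C s h) {c : α} {r : ℕ} (hc : lf.vl c)
    (hok : cOK A Tm c r = true) : TOK D lf t (C : ℂ) (cM A c r) := by
  obtain ⟨h1, h2⟩ := andB_t hok
  obtain ⟨a1, a2⟩ := andB_t h1
  obtain ⟨b1, b2⟩ := andB_t h2
  obtain ⟨c1, c2⟩ := andB_t b2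
  obtain ⟨d1, d2⟩ := andB_t c1
  obtain ⟨e1, e2⟩ := andB_t c2
  have two : TOK D lf t ((2 * T.re : ℝ) : ℂ) (re2M A Tm) := TOK_re2 hA hT
  have hU : TOK D lf t ((2 * (T.re - 1) : ℝ) : ℂ) (utM A Tm) := by
    refine tc (two.sub hA (TOK_db hA (TOK_on hA hP))) ?_
    push_cast; ring
  have hW : TOK D lf t ((2 * T.im : ℝ) * Complex.I) (wtM A Tm) := by
    refine tc (hT.sub hA (hT.conj hA)) ?_
    apply Complex.ext
    · simp
    · simp; ring
  have hpos := ps_pos hA hP hU a1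
  have hA0 : 0 < T.re - 1 := by linarith
  have h3 : TOK D lf t ((-(3 * (2 * T.re) ^ 2 - (2 * T.im) ^ 2) : ℝ) : ℂ)
      (b3M A (re2M A Tm) (wtM A Tm)) := by
    have rr := two.mul hA hP two
    refine tc (TOK_neg hA hP ((rr.add hA (TOK_db hA rr)).add hA (hW.mul hA hP hW))) ?_
    push_cast
    linear_combination (-(4 * (T.im : ℂ) ^ 2)) * Complex.I_sq
  have hneg := ps_pos hA hP h3 a2
  have hT3 : 3 * (T.re - 1 + 1) ^ 2 < T.im ^ 2 := by nlinarith
  obtain ⟨y, hy⟩ := rh_real (t := t) hA hP hc b1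
  have hval := TOK_rh hA hc hy
  have hr : TOK D lf t ((r / UU : ℝ) : ℂ) (cst A r (nat_lit 0)) := by
    refine TOK.cst' hA hP ?_
    push_cast
    rw [mul_div_cancel₀ _ UUc_ne]
  have y1 : TOK D lf t ((y - r / UU : ℝ) : ℂ) (subM A (mk A c (rhM A c)) (cst A r (nat_lit 0))) :=
    tc (hval.sub hA hr) (by push_cast; ring)
  have y2 : TOK D lf t ((y + r / UU : ℝ) : ℂ) (addM A (mk A c (rhM A c)) (cst A r (nat_lit 0))) :=
    tc (hval.add hA hr) (by push_cast; ring)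
  have p1 := ps_pos hA hP y1 d1
  have hz : TOK D lf t ((1 / 2 - (y + r / UU) : ℝ) : ℂ)
      (subM A (hfM A (onM A)) (addM A (mk A c (rhM A c)) (cst A r (nat_lit 0)))) := by
    refine tc ((TOK_hf hA hP (TOK_on hA hP)).sub hA y2) ?_
    push_cast; ring
  have p2 := ps_pos hA hP hz d2
  have p3 := ps_pos hA hP (TOK_gb hA hP hU hW y1) e1
  have g2 := TOK_neg hA hP (TOK_gb hA hP hU hW y2)
  have p4 := ps_pos hA hP (tc g2 (by push_cast; ring :
    -((4 * gB (T.re - 1) T.im (y + r / UU) : ℝ) : ℂ) =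
      ((-(4 * gB (T.re - 1) T.im (y + r / UU)) : ℝ) : ℂ))) e2
  have hr0 : 0 ≤ r / UU := div_nonneg (Nat.cast_nonneg _) UU_pos.le
  have q1 := (H.sign hA0 hT3 (y := y - r / UU) p1 (by linarith)).1 (by linarith)
  have q2 := (H.sign hA0 hT3 (y := y + r / UU) (by linarith) (by linarith)).2 (by linarith)
  refine ⟨vt_mk hA hc _, fun _ => ?_⟩
  show ‖(UU : ℂ) * (C : ℂ) - lf.ev c t‖ ≤ ((Nat.add r (rhM A c) : ℕ) : ℝ)
  have e3 : (UU : ℂ) * (C : ℂ) - lf.ev c t = ((UU * (C - y) : ℝ) : ℂ) +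
      ((UU : ℂ) * (y : ℂ) - lf.ev c t) := by push_cast; ring
  rw [e3, c_add]
  refine (norm_add_le _ _).trans (add_le_add ?_ hy)
  rw [Complex.norm_real, Real.norm_eq_abs, abs_mul, abs_of_pos UU_pos]
  have e5 : |C - y| ≤ r / UU := by rw [abs_le]; constructor <;> linarith
  calc UU * |C - y| ≤ UU * (r / UU) := mul_le_mul_of_nonneg_left e5 UU_pos.le
    _ = r := mul_div_cancel₀ _ UU_pos.ne'

/-- the models are right -/
structure TSN (D : ℕ) (lf : Mch α) (t : ℕ → ℝ) (C s h : ℝ) (Td : ℂ) (N : SN α) : Prop where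
  mu : TOK D lf t (muN C s) N.mu
  mc : TOK D lf t (star (muN C s)) N.mc
  hh : TOK D lf t (h : ℂ) N.h
  g : TOK D lf t ((gN C h : ℝ) : ℂ) N.g
  it : TOK D lf t (Complex.I * ((thN C s h Td : ℝ) : ℂ)) N.it
  hd : TOK D lf t ((hdN C s h Td : ℝ) : ℂ) N.hd
  ts : TOK D lf t ((thN C s h Td * (s * (4 * C ^ 2 - 1)) : ℝ) : ℂ) N.ts
  m2 : TOK D lf t (muN C s ^ 2) N.m2
  ne : h + C * (4 * C ^ 2 - 3) ≠ 0

/-- THE MODELS OF THE SPECTRAL NUMBERS -/
theorem TSN_sp (hA : AOK D lf A) (hP : PT D t) {T Td : ℂ} {Tm Tdm : Mo α} (hT : TOK D lf t T Tm)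
    (hTd : TOK D lf t Td Tdm) {C s h : ℝ} (H : Br (T.re - 1) T.im C s h) {d : ND α}
    (hdc : lf.vl d.c) (hds : lf.vl d.s) (hok : spOK A Tm d = true) : TSN D lf t C s h Td (spM A Tm Tdm d) := by
  obtain ⟨h1, h2⟩ := andB_t hok
  obtain ⟨h3, h4⟩ := andB_t h2
  obtain ⟨h5, h6⟩ := andB_t h4
  have hC := TOK_C hA hP hT H hdc h1
  have hF : TOK D lf t ((1 - C ^ 2 : ℝ) : ℂ) (snF A (cM A d.c d.r)) :=
    tc ((TOK_on hA hP).sub hA (hC.mul hA hP hC)) (by push_cast; ring)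
  have es : √(1 - C ^ 2) = s := by
    have : 1 - C ^ 2 = s ^ 2 := by linarith [H.cs]
    rw [this]; exact Real.sqrt_sq H.s0.le
  have hnn : 0 ≤ 1 - C ^ 2 := by
    have : 1 - C ^ 2 = s ^ 2 := by linarith [H.cs]
    rw [this]; positivity
  have hS : TOK D lf t (s : ℂ) (snM A (cM A d.c d.r) d) := by
    have := (TOK_sqrt hA hP hnn hF hds h3).1
    rw [es] at this
    exact this
  set Cm := cM A d.c d.r
  set Sm := snM A Cm d
  have hmu : TOK D lf t (muN C s) (muM A Cm Sm) := by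
    refine tc (hC.add hA ((TOK_i hA hP).mul hA hP hS)) ?_
    apply Complex.ext <;> simp [muN]
  have hW : TOK D lf t ((2 * T.im : ℝ) * Complex.I) (wtM A Tm) := by
    refine tc (hT.sub hA (hT.conj hA)) ?_
    apply Complex.ext
    · simp
    · simp; ring
  obtain ⟨i1, i2⟩ := TOK.inv hA hP (TOK_db hA (TOK_db hA hS)) h5
  have hh : TOK D lf t (h : ℂ) (hM A (wtM A Tm) Cm Sm) := by
    refine tc (((TOK_neg hA hP ((TOK_i hA hP).mul hA hP hW)).mul hA hP i1).sub hA hC) ?_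
    have hs : (s : ℂ) ≠ 0 := Complex.ofReal_ne_zero.2 H.s0.ne'
    have h7 := H.im
    have h8 : ((T.im : ℝ) : ℂ) = 2 * s * (h + C) := by rw [h7]; push_cast; ring
    push_cast
    rw [h8]
    field_simp
    linear_combination (-(h + C : ℂ)) * Complex.I_sq
  have hq : TOK D lf t ((2 * (h + C * (4 * C ^ 2 - 3)) : ℝ) : ℂ)
      (qdM A Cm (hM A (wtM A Tm) Cm Sm)) := by
    refine tc (TOK_db hA (hh.add hA (hC.mul hA hP ((TOK_db hA (TOK_db hA (hC.mul hA hP hC))).sub hA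
      ((TOK_on hA hP).add hA (TOK_db hA (TOK_on hA hP))))))) ?_
    push_cast; ring
  obtain ⟨j1, j2⟩ := TOK.inv hA hP hq h6
  have hg : TOK D lf t ((gN C h : ℝ) : ℂ) (invM A (qdM A Cm (hM A (wtM A Tm) Cm Sm))) := by
    refine tc j1 ?_
    unfold gN
    push_cast
    rw [one_div]
  have hne : h + C * (4 * C ^ 2 - 3) ≠ 0 := by
    intro h0
    apply j2
    rw [h0]; simp
  have hZ := hTd.mul hA hP (hmu.conj hA)
  have hit : TOK D lf t (Complex.I * ((thN C s h Td : ℝ) : ℂ))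
      (itM A (invM A (qdM A Cm (hM A (wtM A Tm) Cm Sm))) (mulM A Tdm (conjM A (muM A Cm Sm)))) := by
    refine tc (hg.mul hA hP (TOK_hf hA hP (hZ.sub hA (hZ.conj hA)))) ?_
    unfold thN
    set z := Td * star (muN C s)
    have e : z - star z = 2 * Complex.I * (z.im : ℂ) := by
      apply Complex.ext
      · simp
      · simp; ring
    rw [e]
    push_cast
    ring
  have hts : TOK D lf t ((thN C s h Td * (s * (4 * C ^ 2 - 1)) : ℝ) : ℂ) (tsM A Cm Sm
      (itM A (invM A (qdM A Cm (hM A (wtM A Tm) Cm Sm))) (mulM A Tdm (conjM A (muM A Cm Sm))))) := by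
    refine tc (TOK_neg hA hP (((TOK_i hA hP).mul hA hP hit).mul hA hP (hS.mul hA hP
      ((TOK_db hA (TOK_db hA (hC.mul hA hP hC))).sub hA (TOK_on hA hP))))) ?_
    push_cast
    linear_combination (-((thN C s h Td : ℝ) : ℂ) * (s * (4 * (C : ℂ) ^ 2 - 1))) * Complex.I_sq
  refine ⟨hmu, hmu.conj hA, hh, hg, hit, ?_, hts, tc (hmu.mul hA hP hmu) (by ring), hne⟩
  refine tc ((TOK_hf hA hP (TOK_hf hA hP (TOK_re2 hA hZ))).sub hA hts) ?_
  unfold hdN
  push_cast
  ring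

end

end Pool.Agent.Helper91.TMK.NBM
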