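import Pool.Agent.Helper26.TM.NBM
import Pool.Agent.Helper62.C75.NBP

/-!
Taylor model machine (MP_c75db0, star frame), row NB5: the theorems of `Helper62.NBP` (models of the
spectral projections of a rotation letter and of their derivatives) for machines `Mch`. The kernel
definitions and the machine free theorems are those of `Helper62.NBP`.
-/

set_option autoImplicit false
noncomputable section
namespace Pool.Agent.Helper91.TMK.NBP

open Matrix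
open Pool.Agent.Helper90.C75
open Pool.Agent.Helper90.KMO
open Pool.Agent.Helper86.C75 (Z)
open Pool.Agent.Helper86.CX (Cx andB)
open Pool.Agent.Helper86.CT (Alg Mo er mk cst addM subM mulM conjM invM invOK)
open Pool.Agent.Helper17.K9 (V9)
open Pool.Agent.Helper62.TVM (cstC zeM negM hfM re2M nsqM dot3 V3m C3 C9 cstW cstV addW subW negW
  smW cjW jW hdW dtW addV subV negV smV hfV hdV mulV ctV trV ouV oV dlV drV dgV adV sbV mvV)
open Pool.Agent.Helper62.LBM (onM)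
open Pool.Agent.Helper62.NBM (dbM SN gN muN thN hdN)
open Pool.Agent.Helper62.NBP (cjN bM bdM q1M qcM q2M q3M qdM' NP nuM wgM piM pdM np3 np2 np1 np0
  npM SR)
open Pool.Agent.Helper62.NBQ
open Pool.Agent.Helper6.MONO Pool.Agent.Helper6.MONO.W2
open Pool.Agent.Helper91.TMK.LBM (TOK_on)
open Pool.Agent.Helper91.TMK.NBM (TOK_i TOK_db TSN)

/-- the models of the numbers, general form -/
structure TSG (D : ℕ) {α : Type} (lf : Mch α) (t : ℕ → ℝ) (μ : ℂ) (h g th hd ts : ℝ)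
    (N : SN α) : Prop where
  mu : TOK D lf t μ N.mu
  mc : TOK D lf t (star μ) N.mc
  hh : TOK D lf t (h : ℂ) N.h
  g : TOK D lf t (g : ℂ) N.g
  it : TOK D lf t (Complex.I * (th : ℂ)) N.it
  hd : TOK D lf t (hd : ℂ) N.hd
  ts : TOK D lf t (ts : ℂ) N.ts
  m2 : TOK D lf t (μ ^ 2) N.m2

section

variable {α : Type} {D : ℕ} {lf : Mch α} {A : Alg α} {t : ℕ → ℝ}

theorem TSG.of {C s h : ℝ} {Td : ℂ} {N : SN α} (H : TSN D lf t C s h Td N) :
    TSG D lf t (muN C s) h (gN C h) (thN C s h Td) (hdN C s h Td)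
      (thN C s h Td * (s * (4 * C ^ 2 - 1))) N :=
  ⟨H.mu, H.mc, H.hh, H.g, H.it, H.hd, H.ts, H.m2⟩

theorem TSG.cj (hA : AOK D lf A) {μ : ℂ} {h g th hd ts : ℝ} {N : SN α}
    (H : TSG D lf t μ h g th hd ts N) : TSG D lf t (star μ) h g (-th) hd ts (cjN A N) := by
  refine ⟨H.mc, tc H.mu (star_star μ).symm, H.hh, H.g, tc (H.it.conj hA) ?_, H.hd, H.ts,
    tc (H.m2.conj hA) (star_pow μ 2)⟩
  rw [star_mul']
  have sr : star (th : ℂ) = th := Complex.conj_ofReal th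
  have si : star Complex.I = -Complex.I := Complex.conj_I
  rw [sr, si]
  push_cast
  ring

theorem TV_b (hA : AOK D lf A) (hP : PT D t) {O : Mt} {U : V9 α} (hO : TV D lf t O U) {d0 d1 : ℂ}
    {D0 D1 : Mo α} (h0 : TOK D lf t d0 D0) (h1 : TOK D lf t d1 D1) :
    TV D lf t (bE O d0 d1) (bM A U D0 D1) :=
  ⟨((TOK_on hA hP).sub hA hO.a).mul hA hP h0, TOK_neg hA hP (hO.b.mul hA hP h1),
    TOK_neg hA hP hO.c, TOK_neg hA hP (hO.d.mul hA hP h0),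
    ((TOK_on hA hP).sub hA hO.e).mul hA hP h1, TOK_neg hA hP hO.f,
    TOK_neg hA hP (hO.g.mul hA hP h0), TOK_neg hA hP (hO.h.mul hA hP h1),
    (TOK_on hA hP).sub hA hO.i⟩

theorem TV_bd (hA : AOK D lf A) (hP : PT D t) {O : Mt} {U : V9 α} (hO : TV D lf t O U) {d0 d1 : ℂ}
    {D0 D1 : Mo α} (h0 : TOK D lf t d0 D0) (h1 : TOK D lf t d1 D1) :
    TV D lf t (bdE O d0 d1) (bdM A U D0 D1) :=
  ⟨TOK_neg hA hP (hO.a.mul hA hP h0), TOK_neg hA hP (hO.b.mul hA hP h1),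
    TOK_neg hA hP hO.c, TOK_neg hA hP (hO.d.mul hA hP h0),
    TOK_neg hA hP (hO.e.mul hA hP h1), TOK_neg hA hP hO.f,
    TOK_neg hA hP (hO.g.mul hA hP h0), TOK_neg hA hP (hO.h.mul hA hP h1),
    TOK_neg hA hP hO.i⟩

section q

variable {m2 m2' n x y a a' b b' : ℂ} {M2 M2' Nn X Y Aa Aa' Bb Bb' : Mo α}

theorem TOK_q1 (hA : AOK D lf A) (hP : PT D t) (h2 : TOK D lf t m2 M2) (hx : TOK D lf t x X)
    (hy : TOK D lf t y Y) (ha : TOK D lf t a Aa) (hb : TOK D lf t b Bb) :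
    TOK D lf t (m2 * (x * y) - a * y - b * x) (q1M A M2 X Y Aa Bb) :=
  ((h2.mul hA hP (hx.mul hA hP hy)).sub hA (ha.mul hA hP hy)).sub hA (hb.mul hA hP hx)

theorem TOK_q2 (hA : AOK D lf A) (hP : PT D t) (h2 : TOK D lf t m2 M2) (h2' : TOK D lf t m2' M2')
    (hn : TOK D lf t n Nn) (hx : TOK D lf t x X) (hy : TOK D lf t y Y) (ha : TOK D lf t a Aa)
    (ha' : TOK D lf t a' Aa') (hb : TOK D lf t b Bb) (hb' : TOK D lf t b' Bb') :
    TOK D lf t (m2' * (x * y) + m2 * (n * (x + y)) - (a' * y + a * n) - (b' * x + b * n))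
      (q2M A M2 M2' Nn X Y Aa Aa' Bb Bb') :=
  ((((h2'.mul hA hP (hx.mul hA hP hy)).add hA (h2.mul hA hP (hn.mul hA hP (hx.add hA hy)))).sub hA
    ((ha'.mul hA hP hy).add hA (ha.mul hA hP hn)))).sub hA
    ((hb'.mul hA hP hx).add hA (hb.mul hA hP hn))

theorem TOK_q3 (hA : AOK D lf A) (hP : PT D t) (ha : TOK D lf t a Aa) (ha' : TOK D lf t a' Aa')
    (hx : TOK D lf t x X) (hn : TOK D lf t n Nn) :
    TOK D lf t (a' * x + a * n) (q3M A Aa Aa' X Nn) :=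
  (ha'.mul hA hP hx).add hA (ha.mul hA hP hn)

end q

section mats

variable {d0 d1 n0 n1 n2 m2 nn m2' : ℂ} {D0 D1 N0 N1 N2 M2 Nn M2' : Mo α} {O O' : Mt}
  {U U' : V9 α}

theorem TV_qc (hA : AOK D lf A) (hP : PT D t) (h0 : TOK D lf t d0 D0) (h1 : TOK D lf t d1 D1)
    (k0 : TOK D lf t n0 N0) (k1 : TOK D lf t n1 N1) (k2 : TOK D lf t n2 N2)
    (h2 : TOK D lf t m2 M2) (hO : TV D lf t O U) :
    TV D lf t (qcE d0 d1 n0 n1 n2 m2 O) (qcM A D0 D1 N0 N1 N2 M2 U) :=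
  ⟨h0.mul hA hP (TOK_q1 hA hP h2 k1 k2 hO.e hO.i), hO.b.mul hA hP (h1.mul hA hP k2),
    hO.c.mul hA hP k1, hO.d.mul hA hP (h0.mul hA hP k2),
    h1.mul hA hP (TOK_q1 hA hP h2 k0 k2 hO.a hO.i), hO.f.mul hA hP k0,
    hO.g.mul hA hP (h0.mul hA hP k1), hO.h.mul hA hP (h1.mul hA hP k0),
    TOK_q1 hA hP h2 k0 k1 hO.a hO.e⟩

theorem TV_qd (hA : AOK D lf A) (hP : PT D t) (h0 : TOK D lf t d0 D0) (h1 : TOK D lf t d1 D1)
    (k0 : TOK D lf t n0 N0) (k1 : TOK D lf t n1 N1) (k2 : TOK D lf t n2 N2)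
    (h2 : TOK D lf t m2 M2) (hn : TOK D lf t nn Nn) (h2' : TOK D lf t m2' M2')
    (hO : TV D lf t O U) (hO' : TV D lf t O' U') :
    TV D lf t (qdE d0 d1 n0 n1 n2 m2 nn m2' O O') (qdM' A D0 D1 N0 N1 N2 M2 Nn M2' U U') :=
  ⟨h0.mul hA hP (TOK_q2 hA hP h2 h2' hn k1 k2 hO.e hO'.e hO.i hO'.i),
    h1.mul hA hP (TOK_q3 hA hP hO.b hO'.b k2 hn), TOK_q3 hA hP hO.c hO'.c k1 hn,
    h0.mul hA hP (TOK_q3 hA hP hO.d hO'.d k2 hn),
    h1.mul hA hP (TOK_q2 hA hP h2 h2' hn k0 k2 hO.a hO'.a hO.i hO'.i),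
    TOK_q3 hA hP hO.f hO'.f k0 hn, h0.mul hA hP (TOK_q3 hA hP hO.g hO'.g k1 hn),
    h1.mul hA hP (TOK_q3 hA hP hO.h hO'.h k0 hn),
    TOK_q2 hA hP h2 h2' hn k0 k1 hO.a hO'.a hO.e hO'.e⟩

end mats

/-- THE MODELS OF `N`, `Π`, `N'`, `Π'` -/
structure TNP (D : ℕ) (lf : Mch α) (t : ℕ → ℝ) (P N Pd Nd : Mt) (X : NP α) : Prop where
  N : TV D lf t N X.N
  Q : TV D lf t (1 - P) X.Q
  Nd : TV D lf t Nd X.Nd
  Qd : TV D lf t (-Pd) X.Qd

theorem TNP_main (hA : AOK D lf A) (hP : PT D t) {μ : ℂ} {h g th hd ts : ℝ} {T Td : ℂ} {Nm : SN α}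
    (hS : SR μ h g th hd ts T Td) (hM : TSG D lf t μ h g th hd ts Nm) {v y v' y' : V3}
    {d0 d1 : ℂ} {U U' : V9 α} {D0 D1 : Mo α} (hU : TV D lf t (ot v y) U)
    (hU' : TV D lf t (ot v' y + ot v y') U') (h0 : TOK D lf t d0 D0) (h1 : TOK D lf t d1 D1)
    (e1 : v 0 * y 0 + v 1 * y 1 + v 2 * y 2 = 2) (e2 : d0 * d1 = 1)
    (e3 : (v' 0 * y 0 + v 0 * y' 0) + (v' 1 * y 1 + v 1 * y' 1) +
      (v' 2 * y 2 + v 2 * y' 2) = 0)
    (eT : (bE (ot v y) d0 d1).trace = T) (eTd : (bdE (ot v' y + ot v y') d0 d1).trace = Td)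
    {P N Pd Nd : Mt} (H : SPC (bE (ot v y) d0 d1) (bdE (ot v' y + ot v y') d0 d1) μ
      (-star μ ^ 2) th (-2 * th) h hd P N Pd Nd) :
    TNP D lf t P N Pd Nd (np0 A Nm D0 D1 U U') := by
  have hu := hS.u
  have hg := hS.g
  have hts := hS.ts
  set s := star μ with hs
  have hnu : TOK D lf t (-s ^ 2) (nuM A Nm) := TOK_neg hA hP (tc (hM.m2.conj hA) (star_pow μ 2))
  have m3 : μ ^ 2 * (-s ^ 2) = -1 := by linear_combination (-(s * μ) - 1) * hu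
  have k0 := h0.sub hA hnu
  have k1 := h1.sub hA hnu
  have k2 := (TOK_on hA hP).sub hA hnu
  have hmg : TOK D lf t (μ * g) (mulM A Nm.mu Nm.g) := hM.mu.mul hA hP hM.g
  -- `Q`
  have q1 := qc_eq (v := v) (y := y) e1 e2 m3
  have q2 := SPC_Q H
  have eh : T - -s ^ 2 = 2 * μ * h := by rw [hS.T]; ring
  rw [eT, eh, q2] at q1
  have gq : (μ * g) * ((-s ^ 2) ^ 2 - 2 * μ * h * (-s ^ 2) + μ ^ 2) = 1 := by
    linear_combination (g * s ^ 3 + 2 * g * h * (s * μ + 1)) * hu + hg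
  have ePi : 1 - P = (μ * g) • qcE d0 d1 (d0 - -s ^ 2) (d1 - -s ^ 2) (1 - -s ^ 2) (μ ^ 2)
      (ot v y) := by
    rw [← q1, smul_smul, gq, one_smul]
  have hPi : TV D lf t (1 - P) (piM A Nm D0 D1 (nuM A Nm) (mulM A Nm.mu Nm.g) U) :=
    (TV.smul hA hP hmg (TV_qc hA hP h0 h1 k0 k1 k2 hM.m2 hU)).congr ePi.symm
  -- `Q'`
  have m3' : (2 * (Complex.I * th) * μ ^ 2) * (-s ^ 2) + μ ^ 2 * (2 * Complex.I * th * s ^ 2) = 0 := by
    ring
  have r1 := qd_eq (v := v) (y := y) (v' := v') (y' := y') e1 e2 m3 e3 m3'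
  have r2 := SPC_Qd H
  have ehd : Td - 2 * Complex.I * th * s ^ 2 = 2 * μ * (Complex.I * th * h + hd) := by
    rw [hS.Td]; ring
  rw [eT, eTd, eh, ehd, r2] at r1
  have gq' : (μ * g) * (2 * (Complex.I * ((-2 * th : ℝ) : ℂ)) * (-s ^ 2) ^ 2 -
      2 * μ * (Complex.I * th * h + hd) * (-s ^ 2) -
      2 * μ * h * (Complex.I * ((-2 * th : ℝ) : ℂ) * (-s ^ 2)) + 2 * (Complex.I * th) * μ ^ 2) =
      -(Complex.I * th) + 2 * (g * (hd - (ts + 2 * ts))) := by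
    push_cast
    linear_combination (g * (-4 * Complex.I * th * s ^ 3 +
      (-2 * Complex.I * th * h + 2 * hd) * (s * μ + 1))) * hu - (Complex.I * th) * hg +
      (6 * g : ℂ) * hts
  have ePd : -Pd = (μ * g) • qdE d0 d1 (d0 - -s ^ 2) (d1 - -s ^ 2) (1 - -s ^ 2) (μ ^ 2)
      (-(2 * Complex.I * th * s ^ 2)) (2 * (Complex.I * th) * μ ^ 2) (ot v y)
      (ot v' y + ot v y') + (Complex.I * th - 2 * (g * (hd - (ts + 2 * ts)))) • (1 - P) := by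
    rw [← r1, smul_sub, smul_smul, smul_smul, gq, gq', one_smul]
    module
  have hnn : TOK D lf t (-(2 * Complex.I * th * s ^ 2)) (dbM A (mulM A Nm.it (nuM A Nm))) :=
    tc (TOK_db hA (hM.it.mul hA hP hnu)) (by ring)
  have hm2' : TOK D lf t (2 * (Complex.I * th) * μ ^ 2) (dbM A (mulM A Nm.it Nm.m2)) :=
    tc (TOK_db hA (hM.it.mul hA hP hM.m2)) (by ring)
  have hwg : TOK D lf t (Complex.I * th - 2 * (g * (hd - (ts + 2 * ts)))) (wgM A Nm) :=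
    hM.it.sub hA (TOK_db hA (hM.g.mul hA hP (hM.hd.sub hA (hM.ts.add hA (TOK_db hA hM.ts)))))
  have hPd : TV D lf t (-Pd) (pdM A Nm D0 D1 (nuM A Nm) (mulM A Nm.mu Nm.g) U U'
      (piM A Nm D0 D1 (nuM A Nm) (mulM A Nm.mu Nm.g) U)) :=
    ((TV.smul hA hP hmg (TV_qd hA hP h0 h1 k0 k1 k2 hM.m2 hnn hm2' hU hU')).add hA
      (TV.smul hA hP hwg hPi)).congr ePd.symm
  -- `N`
  have k3 : TOK D lf t (s * -s ^ 2) (mulM A Nm.mc (nuM A Nm)) := hM.mc.mul hA hP hnu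
  have hB := TV_b hA hP hU h0 h1
  have hBd := TV_bd hA hP hU' h0 h1
  have eN : N = s • bE (ot v y) d0 d1 + ((h : ℂ) - s * -s ^ 2) • (1 - P) - (h : ℂ) • 1 := by
    rw [SPC_N H hu]
    module
  have hN := ((TV.smul hA hP hM.mc hB).add hA
    (TV.smul hA hP (hM.hh.sub hA k3) hPi)).sb hA hM.hh
  -- `N'`
  have eNd : Nd = s • (bdE (ot v' y + ot v y') d0 d1 - (Complex.I * th) • bE (ot v y) d0 d1) +
      (Complex.I * th * (s * -s ^ 2) + 2 * (Complex.I * th * (s * -s ^ 2)) + hd) • (1 - P) +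
      ((h : ℂ) - s * -s ^ 2) • (-Pd) - (hd : ℂ) • 1 := by
    rw [SPC_Nd H hu]
    push_cast
    module
  have itk := hM.it.mul hA hP k3
  have hNd := (((TV.smul hA hP hM.mc (hBd.sub hA (TV.smul hA hP hM.it hB))).add hA
    (TV.smul hA hP ((itk.add hA (TOK_db hA itk)).add hA hM.hd) hPi)).add hA
    (TV.smul hA hP (hM.hh.sub hA k3) hPd)).sb hA hM.hd
  exact ⟨hN.congr eN.symm, hPi, hNd.congr eNd.symm, hPd⟩

end

end Pool.Agent.Helper91.TMK.NBP
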