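import Pool.Agent.Helper91.TM.V
import Pool.Agent.Helper26.C75.XM

/-!
Taylor model machine (MP_c75db0, star frame): the theorems of `Helper26.XM` (the matrix `nX` of an
item) for machines `Mch`. The kernel definitions are those of `Helper26.XM`.
-/

set_option autoImplicit false
noncomputable section
namespace Pool.Agent.Helper91.TMK.XM

open Pool.Agent.Helper90.KMO
open Pool.Agent.Helper86.CX (Cx)
open Pool.Agent.Helper86.CT (Alg Mo er mk cst addM subM mulM conjM)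
open Pool.Agent.Helper17.K9 (V9)
open Pool.Agent.Helper62.TVM (cstC zeM negM hfM re2M nsqM dot3 V3m C3 C9 cstW cstV addW subW negW
  smW cjW jW hdW dtW addV subV negV smV hfV hdV mulV ctV trV ouV oV dlV drV dgV adV sbV mvV)
open Pool.Agent.Helper26.XM (oneM cMm cdM FX fx1 fxM lM rM' ajV gaV xM x0M xtM rtM RX rx3 rxM mrM
  drM pM qM xpM xrM oJ lR rR nX_LR rfJ_oJ rfd_oJ rM_oJ rD_oJ adJ_apply qR oJ_mul mul_oJ run_eq
  sR xR tR uR rM_run rD_run sDm_even)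
open Pool.Agent.Helper6.MONO.W2 (Sy J1 nG nX rfJ rfd adJ nR nRd nRr nW nWd rM rMr rD ns nsd sDm)

section

variable {α : Type} {D : ℕ} {lf : Mch α} {A : Alg α} {t : ℕ → ℝ}

theorem TOK_one (hA : AOK D lf A) (hP : PT D t) : TOK D lf t 1 (oneM A) :=
  TOK.cst' hA hP (by unfold UU; norm_num)

variable {v vd : Fin 3 → ℂ} {Vm Vd : V3m α}

theorem TV_c (hA : AOK D lf A) (hP : PT D t) (hv : TW D lf t v Vm) :
    TV D lf t (rfJ 1 v) (cMm A Vm) :=
  (((hv.o hA hP hv).neg hA hP).ad hA (TOK_one hA hP)).congr (rfJ_oJ v).symm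

theorem TV_cd (hA : AOK D lf A) (hP : PT D t) (hv : TW D lf t v Vm) (hd : TW D lf t vd Vd) :
    TV D lf t (rfd 1 0 v vd) (cdM A Vm Vd) :=
  (((hd.o hA hP hv).add hA (hv.o hA hP hd)).neg hA hP).congr (rfd_oJ v vd).symm

/-- MODEL OF `c` AND `G / 2` -/
structure FOK (D : ℕ) (lf : Mch α) (t : ℕ → ℝ) (v vd : Fin 3 → ℂ) (F : FX α) : Prop where
  c : TV D lf t (rfJ 1 v) F.c
  h : TV D lf t ((1 / 2 : ℂ) • nG v vd) F.h

theorem FOK_fx (hA : AOK D lf A) (hP : PT D t) (hv : TW D lf t v Vm) (hd : TW D lf t vd Vd) :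
    FOK D lf t v vd (fxM A Vm Vd) :=
  ⟨TV_c hA hP hv, ((TV_c hA hP hv).mul hA hP (TV_cd hA hP hv hd)).half hA hP⟩

variable {F : FX α} {S : Matrix (Fin 3) (Fin 3) ℂ} {U : V9 α}

theorem TV_l (hA : AOK D lf A) (hP : PT D t) (hF : FOK D lf t v vd F) (hS : TV D lf t S U) :
    TV D lf t (lR v vd S) (lM A F U) := (hS.mul hA hP hF.c).sub hA hF.h

theorem TV_r (hA : AOK D lf A) (hP : PT D t) (hF : FOK D lf t v vd F) (hS : TV D lf t S U) :
    TV D lf t (rR v vd S) (rM' A F U) := (hF.c.mul hA hP hS).sub hA hF.h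

/-- `adJ` -/
theorem TV_aj (hA : AOK D lf A) (hP : PT D t) (hS : TV D lf t S U) :
    TV D lf t (adJ S) (ajV A U) := by
  have e : ∀ i j, adJ S i j = ![1, 1, -1] i * star (S j i) * ![1, 1, -1] j := adJ_apply S
  exact ⟨tc (hS.a.conj hA) (by rw [e]; simp), tc (hS.d.conj hA) (by rw [e]; simp),
    tc (TOK_neg hA hP (hS.g.conj hA)) (by rw [e]; simp),
    tc (hS.b.conj hA) (by rw [e]; simp), tc (hS.e.conj hA) (by rw [e]; simp),
    tc (TOK_neg hA hP (hS.h.conj hA)) (by rw [e]; simp),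
    tc (TOK_neg hA hP (hS.c.conj hA)) (by rw [e]; simp),
    tc (TOK_neg hA hP (hS.f.conj hA)) (by rw [e]; simp), tc (hS.i.conj hA) (by rw [e]; simp)⟩

theorem TV_ga (hA : AOK D lf A) (hP : PT D t) {S0 X Y : Matrix (Fin 3) (Fin 3) ℂ}
    {U0 UX UY : V9 α} (h0 : TV D lf t S0 U0) (hX : TV D lf t X UX) (hY : TV D lf t Y UY) :
    TV D lf t (S0 + X - adJ Y) (gaV A U0 UX UY) := (h0.add hA hX).sub hA (TV_aj hA hP hY)

variable {M Dm S' : Matrix (Fin 3) (Fin 3) ℂ} {Mm Dd L R : V9 α}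

/-- `nX`, ANY BLOCK -/
theorem TV_x (hA : AOK D lf A) (hP : PT D t) (hM : TV D lf t M Mm) (hD : TV D lf t Dm Dd)
    (hL : TV D lf t (lR v vd S) L) (hR : TV D lf t (rR v vd S') R) :
    TV D lf t (nX v vd M Dm S S') (xM A Mm Dd L R) :=
  (hD.add hA ((hM.mul hA hP hL).sub hA (hR.mul hA hP hM))).congr (nX_LR v vd M Dm S S').symm

/-- `nX`, `D = 0` -/
theorem TV_x0 (hA : AOK D lf A) (hP : PT D t) (hM : TV D lf t M Mm)
    (hL : TV D lf t (lR v vd S) L) (hR : TV D lf t (rR v vd S') R) :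
    TV D lf t (nX v vd M 0 S S') (x0M A Mm L R) :=
  ((hM.mul hA hP hL).sub hA (hR.mul hA hP hM)).congr (by rw [nX_LR, zero_add])

theorem TV_rt (hA : AOK D lf A) (hP : PT D t) {e f : ℂ} {E F' : Mo α} (he : TOK D lf t e E)
    (hf : TOK D lf t f F') : TV D lf t (!![e, 0, 0; 0, f, 0; 0, 0, 1]) (rtM A E F') :=
  ⟨tc he (by simp), tc (TOK_ze hA hP) (by simp), tc (TOK_ze hA hP) (by simp),
    tc (TOK_ze hA hP) (by simp), tc hf (by simp), tc (TOK_ze hA hP) (by simp),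
    tc (TOK_ze hA hP) (by simp), tc (TOK_ze hA hP) (by simp), tc (TOK_one hA hP) (by simp)⟩

/-- `nX`, ROTATION -/
theorem TV_xt (hA : AOK D lf A) (hP : PT D t) {e f : ℂ} {E F' : Mo α} (he : TOK D lf t e E)
    (hf : TOK D lf t f F') (hL : TV D lf t (lR v vd S) L) (hR : TV D lf t (rR v vd S') R) :
    TV D lf t (nX v vd (!![e, 0, 0; 0, f, 0; 0, 0, 1]) 0 S S') (xtM A E F' L R) := by
  have k : ∀ i j, (!![e, 0, 0; 0, f, 0; 0, 0, 1] * lR v vd S -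
      rR v vd S' * !![e, 0, 0; 0, f, 0; 0, 0, 1]) i j =
      nX v vd (!![e, 0, 0; 0, f, 0; 0, 0, 1]) 0 S S' i j := fun i j => by
    rw [nX_LR, zero_add]
  constructor
  · refine tc (he.mul hA hP (hL.a.sub hA hR.a)) ((?_ : _ = _).trans (k 0 0))
    simp only [Matrix.sub_apply, Matrix.mul_apply, Fin.sum_univ_three]
    simp
    ring
  · refine tc ((he.mul hA hP hL.b).sub hA (hR.b.mul hA hP hf)) ((?_ : _ = _).trans (k 0 1))
    simp only [Matrix.sub_apply, Matrix.mul_apply, Fin.sum_univ_three]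
    simp
  · refine tc ((he.mul hA hP hL.c).sub hA hR.c) ((?_ : _ = _).trans (k 0 2))
    simp only [Matrix.sub_apply, Matrix.mul_apply, Fin.sum_univ_three]
    simp
  · refine tc ((hf.mul hA hP hL.d).sub hA (hR.d.mul hA hP he)) ((?_ : _ = _).trans (k 1 0))
    simp only [Matrix.sub_apply, Matrix.mul_apply, Fin.sum_univ_three]
    simp
  · refine tc (hf.mul hA hP (hL.e.sub hA hR.e)) ((?_ : _ = _).trans (k 1 1))
    simp only [Matrix.sub_apply, Matrix.mul_apply, Fin.sum_univ_three]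
    simp
    ring
  · refine tc ((hf.mul hA hP hL.f).sub hA hR.f) ((?_ : _ = _).trans (k 1 2))
    simp only [Matrix.sub_apply, Matrix.mul_apply, Fin.sum_univ_three]
    simp
  · refine tc (hL.g.sub hA (hR.g.mul hA hP he)) ((?_ : _ = _).trans (k 2 0))
    simp only [Matrix.sub_apply, Matrix.mul_apply, Fin.sum_univ_three]
    simp
  · refine tc (hL.h.sub hA (hR.h.mul hA hP hf)) ((?_ : _ = _).trans (k 2 1))
    simp only [Matrix.sub_apply, Matrix.mul_apply, Fin.sum_univ_three]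
    simp
  · refine tc (hL.i.sub hA hR.i) ((?_ : _ = _).trans (k 2 2))
    simp only [Matrix.sub_apply, Matrix.mul_apply, Fin.sum_univ_three]
    simp

/-! #### runs -/

/-- MODEL OF THE DATA OF A RUN -/
structure ROK (D : ℕ) (lf : Mch α) (t : ℕ → ℝ) (s x : Fin 3 → ℂ) (τ σ : ℂ) (Q : RX α) :
    Prop where
  hs : TW D lf t s Q.s
  hx : TW D lf t x Q.x
  ht : TOK D lf t τ Q.t
  hu : TOK D lf t σ Q.u

variable {s x : Fin 3 → ℂ} {τ σ : ℂ} {Q : RX α}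

theorem TW_p (hA : AOK D lf A) (hP : PT D t) (hQ : ROK D lf t s x τ σ Q)
    (hR : TV D lf t (rR v vd S') R) :
    TW D lf t (x - (rR v vd S').mulVec s) (pM A Q R) := hQ.hx.sub hA (hR.mv hA hP hQ.hs)

theorem TW_q (hA : AOK D lf A) (hP : PT D t) (hQ : ROK D lf t s x τ σ Q)
    (hL : TV D lf t (lR v vd S) L) :
    TW D lf t (qR s x (lR v vd S)) (qM A Q L) :=
  (hQ.hx.jw hA hP).add hA ((hL.tr).mv hA hP (hQ.hs.jw hA hP))

/-- `nX` OF A RUN, `p` and `q` given -/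
theorem TV_xp (hA : AOK D lf A) (hP : PT D t) (hQ : ROK D lf t s x τ σ Q)
    (hL : TV D lf t (lR v vd S) L) (hR : TV D lf t (rR v vd S') R) {p q : V3m α}
    (hp : TW D lf t (x - (rR v vd S').mulVec s) p) (hq : TW D lf t (qR s x (lR v vd S)) q) :
    TV D lf t (nX v vd (oJ s s - τ • 1) (oJ x s + oJ s x + σ • 1) S S') (xpM A Q p q L R) :=
  ((((hp.ou hA hP (hQ.hs.jw hA hP)).add hA (hQ.hs.ou hA hP hq)).add hA
    ((hR.sub hA hL).smul hA hP hQ.ht)).ad hA hQ.hu).congr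
      ((run_eq (lR v vd S) (rR v vd S')).symm.trans (nX_LR v vd _ _ S S').symm)

/-- `nX` OF A RUN -/
theorem TV_xr (hA : AOK D lf A) (hP : PT D t) (hQ : ROK D lf t s x τ σ Q)
    (hL : TV D lf t (lR v vd S) L) (hR : TV D lf t (rR v vd S') R) :
    TV D lf t (nX v vd (oJ s s - τ • 1) (oJ x s + oJ s x + σ • 1) S S') (xrM A Q L R) :=
  TV_xp hA hP hQ hL hR (TW_p hA hP hQ hR) (TW_q hA hP hQ hL)

theorem TV_mr (hA : AOK D lf A) (hP : PT D t) (hQ : ROK D lf t s x τ σ Q) :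
    TV D lf t (oJ s s - τ • 1) (mrM A Q) := (hQ.hs.o hA hP hQ.hs).sb hA hQ.ht

theorem TV_dr (hA : AOK D lf A) (hP : PT D t) (hQ : ROK D lf t s x τ σ Q) :
    TV D lf t (oJ x s + oJ s x + σ • 1) (drM A Q) :=
  ((hQ.hx.o hA hP hQ.hs).add hA (hQ.hs.o hA hP hQ.hx)).ad hA hQ.hu

/-- the data of the run from the models of its parameters -/
theorem ROK_rx (hA : AOK D lf A) (hP : PT D t) {φ : ℝ} {g : Sy} {ρ a1 a2 : ℝ}
    {Vs Vsd : V3m α} {W Wd Rm A1 A2 : Mo α}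
    (hv : TW D lf t v Vm) (hd : TW D lf t vd Vd) (hs : TW D lf t (ns φ v g.1 g.2) Vs)
    (hsd : TW D lf t (nsd φ vd g.1 g.2) Vsd) (hw : TOK D lf t ((nW φ v g : ℝ) : ℂ) W)
    (hwd : TOK D lf t ((nWd φ v vd g : ℝ) : ℂ) Wd) (hr : TOK D lf t ((ρ : ℝ) : ℂ) Rm)
    (h1 : TOK D lf t ((a1 : ℝ) : ℂ) A1) (h2 : TOK D lf t ((a2 : ℝ) : ℂ) A2) :
    ROK D lf t (sR φ v g ρ) (xR φ v vd g ρ a1 a2) (tR φ v g ρ) (uR φ v vd g ρ a1 a2)
      (rxM A Vm Vd Vs Vsd W Wd Rm A1 A2) := by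
  have hS : TW D lf t (sR φ v g ρ) (subW A Vs (smW A Rm Vm)) := hs.sub hA (hv.smul hA hP hr)
  have g1 : TOK D lf t ((nWd φ v vd g * a1 : ℝ) : ℂ) (mulM A Wd A1) :=
    tc (hwd.mul hA hP h1) (by push_cast; ring)
  have g2 : TOK D lf t ((nWd φ v vd g * a2 : ℝ) : ℂ) (mulM A Wd A2) :=
    tc (hwd.mul hA hP h2) (by push_cast; ring)
  have g3 : TOK D lf t ((1 / 2 * (nWd φ v vd g * a1) : ℝ) : ℂ) (hfM A (mulM A Wd A1)) :=
    tc (TOK_hf hA hP g1) (by push_cast; ring)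
  have hT : TOK D lf t (tR φ v g ρ) (subM A (addM A W (mulM A Rm Rm)) (mulM A W Rm)) :=
    tc ((hw.add hA (hr.mul hA hP hr)).sub hA (hw.mul hA hP hr)) (by unfold tR; push_cast; ring)
  refine ⟨hS, ?_, hT, ?_⟩
  · exact ((hsd.sub hA (hd.smul hA hP hr)).add hA (hv.smul hA hP g2)).add hA
      (hS.smul hA hP g3)
  · refine tc ((((hwd.mul hA hP hr).sub hA hwd).sub hA (g1.mul hA hP hT)).add hA
      (g2.mul hA hP ((hr.add hA hr).sub hA hw))) ?_
    unfold tR uR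
    push_cast
    ring

/-- THE ITEM OF A RUN: models of `nX .. (rM ..) (rD ..) S S'` -/
theorem TV_item (hA : AOK D lf A) (hP : PT D t) {φ : ℝ} {g : Sy} {ρ a1 a2 : ℝ}
    (hQ : ROK D lf t (sR φ v g ρ) (xR φ v vd g ρ a1 a2) (tR φ v g ρ) (uR φ v vd g ρ a1 a2) Q)
    (hL : TV D lf t (lR v vd S) L) (hR : TV D lf t (rR v vd S') R) :
    TV D lf t (nX v vd (rM φ v g ρ) (rD φ v vd g ρ a1 a2) S S') (xrM A Q L R) ∧
      TV D lf t (rM φ v g ρ) (mrM A Q) := by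
  have h := TV_xr hA hP hQ hL hR
  rw [rM_run, rD_run] at h
  exact ⟨h, (TV_mr hA hP hQ).congr (rM_run φ v g ρ)⟩

/-- the same with `p` and `q` given -/
theorem TV_item' (hA : AOK D lf A) (hP : PT D t) {φ : ℝ} {g : Sy} {ρ a1 a2 : ℝ} {p q : V3m α}
    (hQ : ROK D lf t (sR φ v g ρ) (xR φ v vd g ρ a1 a2) (tR φ v g ρ) (uR φ v vd g ρ a1 a2) Q)
    (hL : TV D lf t (lR v vd S) L) (hR : TV D lf t (rR v vd S') R)
    (hp : TW D lf t (xR φ v vd g ρ a1 a2 - (rR v vd S').mulVec (sR φ v g ρ)) p)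
    (hq : TW D lf t (qR (sR φ v g ρ) (xR φ v vd g ρ a1 a2) (lR v vd S)) q) :
    TV D lf t (nX v vd (rM φ v g ρ) (rD φ v vd g ρ a1 a2) S S') (xpM A Q p q L R) := by
  have h := TV_xp hA hP hQ hL hR hp hq
  rw [rM_run, rD_run] at h
  exact h

/-! #### rotations -/

/-- THE ITEM OF A ROTATION -/
theorem TV_rot (hA : AOK D lf A) (hP : PT D t) {φ : ℝ} {g : Sy} (hg : g.2 % 2 = 0)
    {E F' : Mo α}
    (he : TOK D lf t ((if g.1 then star (Pool.Agent.Helper6.MONO.W2.ep φ) else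
        Pool.Agent.Helper6.MONO.W2.ep φ) ^ g.2) E)
    (hf : TOK D lf t ((if g.1 then Pool.Agent.Helper6.MONO.W2.ep φ else
        star (Pool.Agent.Helper6.MONO.W2.ep φ)) ^ g.2) F')
    (hL : TV D lf t (lR v vd S) L) (hR : TV D lf t (rR v vd S') R) :
    TV D lf t (nX v vd (sDm φ g.1 g.2) 0 S S') (xtM A E F' L R) ∧
      TV D lf t (sDm φ g.1 g.2) (rtM A E F') := by
  rw [sDm_even φ g.1 g.2 hg]
  exact ⟨TV_xt hA hP he hf hL hR, TV_rt hA hP he hf⟩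

end

end Pool.Agent.Helper91.TMK.XM
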